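import Pool.Agent.Y330.G.A2
import Pool.Agent.H789R2.AN.Tr

set_option autoImplicit false

open Filter Topology Set Metric

namespace Pool.Agent.Y330.G

open Pool.Agent.H789R2.AN

variable {X : Type*} [MetricSpace X]

/-- Local unstable sets depend continuously on the base point. -/
theorem hol [CompactSpace X] {g : X ≃ₜ X} {c : ℝ} (h : LP g c) {η : ℝ} (hη : 0 < η) :
    ∃ δ > 0, ∀ ε ≤ c, ∀ v v' w, dist v v' < δ → SR g.symm ε v w →
      ∃ w', SR g η w w' ∧ SR g.symm (ε + η) v' w' := by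
  obtain ⟨δ, hδ, hlp⟩ := h.lp (η / 2) (half_pos hη)
  obtain ⟨m, hm⟩ := pw (c := c) (show 0 < δ / 4 by linarith)
  obtain ⟨δ₁, hδ₁, hu⟩ := uc g.symm g.symm.continuous m
    (show 0 < min (δ / 2) (η / 2) from lt_min (half_pos hδ) (half_pos hη))
  refine ⟨δ₁, hδ₁, fun ε hε v v' w hvv hvw => ?_⟩
  have h1 : dist (g.symm^[m] w) (g.symm^[m] v') < δ := by
    have h2 := (h.cU v w (hvw.mono hε) m).trans hm
    have h3 := (hu m le_rfl _ _ hvv).trans_le (min_le_left _ _)
    have := dist_triangle_left (g.symm^[m] w) (g.symm^[m] v') (g.symm^[m] v)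
    linarith
  obtain ⟨z, hz1, hz2⟩ := hlp _ _ h1
  refine ⟨g^[m] z, fun k => ?_, fun i => ?_⟩
  · have h2 := hz1 (k + m)
    rw [Function.iterate_add_apply, iterR, Function.iterate_add_apply] at h2
    linarith
  · rcases le_total i m with hi | hi
    · rw [bk g hi]
      have h2 := hz1 (m - i)
      rw [fw g (by omega)] at h2
      have e : m - (m - i) = i := by omega
      rw [e] at h2
      have h3 := (hu i hi _ _ hvv).trans_le (min_le_right _ _)
      have h4 := hvw i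
      have h5 := dist_triangle4 (g.symm^[i] v') (g.symm^[i] v) (g.symm^[i] w) (g^[m - i] z)
      rw [dist_comm (g.symm^[i] v') (g.symm^[i] v)] at h5
      linarith
    · rw [bk' g hi]
      have h2 := hz2 (i - m)
      rw [← Function.iterate_add_apply] at h2
      have e : i - m + m = i := by omega
      rw [e] at h2
      have h4 := (dist_nonneg).trans (hvw i)
      linarith

theorem ws_symm_symm (g : X ≃ₜ X) (x y : X) : WS g.symm.symm x y ↔ WS g x y := Iff.rfl

/-- A proper minimal repeller contains no local unstable set. -/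
theorem exit [CompactSpace X] [ConnectedSpace X] {g : X ≃ₜ X} {c : ℝ} (h : LP g c) {R : Set X}
    (hR : MinAtt g.symm R) (hne : R ≠ univ) {ε : ℝ} (hε : 0 < ε) {v : X} (hv : v ∈ R) :
    ∃ w, SR g.symm ε v w ∧ w ∉ R := by
  by_contra hcon
  push Not at hcon
  obtain ⟨δ, hδ, hlp⟩ := h.lp (min ε c) (lt_min hε h.c_pos)
  have hint : v ∈ interior R := by
    rw [mem_interior_iff_mem_nhds, Metric.mem_nhds_iff]
    refine ⟨δ, hδ, fun x hx => ?_⟩
    obtain ⟨z, hz1, hz2⟩ := hlp x v hx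
    have hzR : z ∈ R := hcon z (hz2.mono (min_le_left _ _))
    exact hR.1.sat z hzR x (WS.of_SR (h.cS _ _ (hz1.mono (min_le_right _ _)))).symm'
  have hB : IsAtt g.symm (closure Rᶜ) := by
    refine ⟨isClosed_closure, ?_, ?_, ?_⟩
    · rw [closure_nonempty_iff, nonempty_compl]
      exact hne
    · intro w
      have e1 : g.symm ⁻¹' Rᶜ = Rᶜ := by
        ext w
        simp only [mem_preimage, mem_compl_iff]
        rw [hR.1.inv]
      have e2 := g.symm.preimage_closure Rᶜ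
      rw [e1] at e2
      rw [← mem_preimage, e2]
    · apply closure_sat h.symm
      intro x hx y hxy hy
      exact hx (hR.1.sat y hy x hxy.symm')
  by_cases hmeet : (R ∩ closure Rᶜ).Nonempty
  · have h1 := hR.subset_of_meet hB hmeet hv
    rw [closure_compl] at h1
    exact h1 hint
  · rw [not_nonempty_iff_eq_empty, closure_compl] at hmeet
    have h1 : R ⊆ interior R := by
      intro x hx
      by_contra h2
      have : x ∈ R ∩ (interior R)ᶜ := ⟨hx, h2⟩
      rw [hmeet] at this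
      exact this
    have h2 : IsClopen R := ⟨hR.1.closed, by
      rw [(Subset.antisymm h1 interior_subset)]
      exact isOpen_interior⟩
    rcases isClopen_iff.mp h2 with h3 | h3
    · rw [h3] at hv
      exact hv
    · exact hne h3

/-- Uniform version of `exit`. -/
theorem exit_unif [CompactSpace X] [ConnectedSpace X] {g : X ≃ₜ X} {c : ℝ} (h : LP g c)
    {R : Set X} (hR : MinAtt g.symm R) (hne : R ≠ univ) {ε : ℝ} (hε : 0 < ε) (hεc : ε ≤ c) :
    ∃ η > 0, ∀ v ∈ R, ∃ w, SR g.symm ε v w ∧ ∀ r ∈ R, η ≤ dist w r := by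
  have hK : IsCompact R := hR.1.closed.isCompact
  have key : ∃ η > 0, ∀ v ∈ R ∩ R, ∃ w, SR g.symm ε v w ∧ ∀ r ∈ R, η ≤ dist w r := by
    refine hK.induction_on (p := fun S => ∃ η > 0, ∀ v ∈ S ∩ R, ∃ w, SR g.symm ε v w ∧
      ∀ r ∈ R, η ≤ dist w r) ?_ ?_ ?_ ?_
    · exact ⟨1, one_pos, fun v hv => absurd hv.1 (notMem_empty v)⟩
    · rintro S T hST ⟨η, hη, h1⟩
      exact ⟨η, hη, fun v hv => h1 v ⟨hST hv.1, hv.2⟩⟩
    · rintro S T ⟨η, hη, h1⟩ ⟨η', hη', h2⟩
      refine ⟨min η η', lt_min hη hη', fun v hv => ?_⟩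
      rcases hv with ⟨hv | hv, hvR⟩
      · obtain ⟨w, h3, h4⟩ := h1 v ⟨hv, hvR⟩
        exact ⟨w, h3, fun r hr => (min_le_left _ _).trans (h4 r hr)⟩
      · obtain ⟨w, h3, h4⟩ := h2 v ⟨hv, hvR⟩
        exact ⟨w, h3, fun r hr => (min_le_right _ _).trans (h4 r hr)⟩
    · intro v hv
      obtain ⟨w, hw1, hw2⟩ := exit h hR hne (half_pos hε) hv
      obtain ⟨η, hη, hball⟩ := Metric.isOpen_iff.mp hR.1.closed.isOpen_compl w hw2
      obtain ⟨δ, hδ, hh⟩ := hol h (show 0 < min (η / 2) (ε / 2) from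
        lt_min (half_pos hη) (half_pos hε))
      refine ⟨ball v δ, mem_nhdsWithin_of_mem_nhds (ball_mem_nhds v hδ), η / 2, half_pos hη,
        fun v' hv' => ?_⟩
      obtain ⟨w', h1, h2⟩ := hh (ε / 2) (by linarith) v v' w
        (by rw [dist_comm]; exact hv'.1) hw1
      refine ⟨w', h2.mono ?_, fun r hr => ?_⟩
      · have := min_le_right (η / 2) (ε / 2)
        linarith
      · by_contra hcon
        push Not at hcon
        have h3 := (h1 0).trans (min_le_left _ _)
        have h4 : r ∈ ball w η := by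
          rw [mem_ball, dist_comm]
          have := dist_triangle w w' r
          simp only [Function.iterate_zero, id] at h3
          linarith
        exact hball h4 hr
  obtain ⟨η, hη, h1⟩ := key
  exact ⟨η, hη, fun v hv => h1 v ⟨hv, hv⟩⟩

/-- Connecting orbits inside a minimal repeller. -/
theorem conn [CompactSpace X] {g : X ≃ₜ X} {c : ℝ} (h : LP g c) {R : Set X}
    (hR : MinAtt g.symm R) {r : X} (hr : r ∈ R) {ε η : ℝ} (hε : 0 < ε) (hη : 0 < η) {v : X}
    (hv : v ∈ R) : ∃ (J : ℕ) (z : X), SR g.symm ε r z ∧ SR g η v (g^[J] z) := by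
  set ω : Set X := {y | MapClusterPt y atTop (fun n : ℕ => g.symm^[n] v)} with hω
  have hωchar : ∀ y, y ∈ ω ↔ ∀ W ∈ 𝓝 y, ∀ N : ℕ, ∃ n ≥ N, g.symm^[n] v ∈ W := by
    intro y
    have : y ∈ ω ↔ MapClusterPt y atTop (fun n : ℕ => g.symm^[n] v) := Iff.rfl
    rw [this, mapClusterPt_iff_frequently]
    exact forall₂_congr fun W _ => frequently_atTop
  have hωne : ω.Nonempty := by
    obtain ⟨y, hy⟩ := exists_clusterPt_of_compactSpace (map (fun n : ℕ => g.symm^[n] v) atTop)
    exact ⟨y, hy⟩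
  have hvn : ∀ n, g.symm^[n] v ∈ R := fun n => (inv_iter hR.1.inv n v).mpr hv
  have hωR : ω ⊆ R := by
    intro y hy
    by_contra hcon
    obtain ⟨n, -, hn⟩ := (hωchar y).mp hy _ (hR.1.closed.isOpen_compl.mem_nhds hcon) 0
    exact hn (hvn n)
  have hωinv : ∀ y, g.symm y ∈ ω ↔ y ∈ ω := by
    intro y
    rw [hωchar, hωchar]
    constructor
    · intro hy W hW N
      have h1 : g ⁻¹' W ∈ 𝓝 (g.symm y) := by
        apply g.continuous.continuousAt.preimage_mem_nhds
        rwa [g.apply_symm_apply]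
      obtain ⟨n, hn, h2⟩ := hy _ h1 (N + 1)
      refine ⟨n - 1, by omega, ?_⟩
      have h3 : g.symm^[n] v = g.symm (g.symm^[n - 1] v) := by
        rw [← Function.iterate_succ_apply' g.symm (n - 1)]
        congr 1
        omega
      rw [mem_preimage, h3, g.apply_symm_apply] at h2
      exact h2
    · intro hy W hW N
      have h1 : g.symm ⁻¹' W ∈ 𝓝 y := g.symm.continuous.continuousAt.preimage_mem_nhds hW
      obtain ⟨n, hn, h2⟩ := hy _ h1 N
      refine ⟨n + 1, by omega, ?_⟩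
      rw [Function.iterate_succ_apply']
      exact h2
  set S : Set X := {w | ∃ y ∈ ω, WS g y w} with hS
  have hSsat : ∀ w ∈ S, ∀ w', WS g w w' → w' ∈ S := by
    rintro w ⟨y, hy, hyw⟩ w' hww'
    exact ⟨y, hy, hyw.trans hww'⟩
  have hSinv : ∀ w, g.symm w ∈ S ↔ w ∈ S := by
    intro w
    constructor
    · rintro ⟨y, hy, hyw⟩
      refine ⟨g y, ?_, ?_⟩
      · rw [← hωinv, g.symm_apply_apply]
        exact hy
      · have := hyw.mapIter (φ := g) (fun _ => rfl) 1
        simpa using this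
    · rintro ⟨y, hy, hyw⟩
      refine ⟨g.symm y, (hωinv y).mpr hy, ?_⟩
      rw [← WS.iter 1]
      simpa using hyw
  have hatt : IsAtt g.symm (closure S) := by
    refine ⟨isClosed_closure, ?_, ?_, closure_sat h.symm hSsat⟩
    · obtain ⟨y, hy⟩ := hωne
      exact ⟨y, subset_closure ⟨y, hy, WS.refl _ _⟩⟩
    · intro w
      have e1 : g.symm ⁻¹' S = S := by
        ext w
        exact hSinv w
      have e2 := g.symm.preimage_closure S
      rw [e1] at e2
      rw [← mem_preimage, e2]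
  have hsub : R ⊆ closure S := by
    apply hR.subset_of_meet hatt
    obtain ⟨y, hy⟩ := hωne
    exact ⟨y, hωR hy, subset_closure ⟨y, hy, WS.refl _ _⟩⟩
  set ε₂ := min ε (min (η / 2) c) with hε₂
  have hε₂0 : 0 < ε₂ := lt_min hε (lt_min (half_pos hη) h.c_pos)
  obtain ⟨δ₃, hδ₃, hlp3⟩ := h.lp ε₂ hε₂0
  set ε₁ := min (η / 2) (min (δ₃ / 4) c) with hε₁
  have hε₁0 : 0 < ε₁ := lt_min (half_pos hη) (lt_min (by linarith) h.c_pos)
  obtain ⟨δ, hδ, hlp⟩ := h.lp ε₁ hε₁0
  obtain ⟨w, ⟨y, hy, hyw⟩, hrw⟩ := Metric.mem_closure_iff.mp (hsub hr) (δ₃ / 2) (half_pos hδ₃)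
  obtain ⟨m, hm⟩ := hyw.eventually_lt (half_pos hδ)
  have h1 := hm m le_rfl
  have h2 : {y' | dist (g^[m] y') (g^[m] y) < δ / 2} ∈ 𝓝 y := by
    have hcont : Continuous fun s => dist (g^[m] s) (g^[m] y) :=
      (g.continuous.iterate m).dist continuous_const
    exact (isOpen_lt hcont continuous_const).mem_nhds (by
      show dist (g^[m] y) (g^[m] y) < δ / 2
      rw [dist_self]; linarith)
  obtain ⟨n, hn, h3⟩ := (hωchar y).mp hy _ h2 m
  have h3' : dist (g^[m] (g.symm^[n] v)) (g^[m] y) < δ / 2 := h3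
  have h4 : dist (g^[m] (g.symm^[n] v)) (g^[m] w) < δ := by
    have := dist_triangle (g^[m] (g.symm^[n] v)) (g^[m] y) (g^[m] w)
    linarith
  obtain ⟨z₁, hz1, hz2⟩ := hlp _ _ h4
  have h5 : dist w (g.symm^[m] z₁) ≤ ε₁ := by
    have := hz2 m
    rwa [iterL] at this
  have h6 : dist (g.symm^[m] z₁) r < δ₃ := by
    have h7 : ε₁ ≤ δ₃ / 4 := (min_le_right _ _).trans (min_le_left _ _)
    have := dist_triangle_left (g.symm^[m] z₁) r w
    rw [dist_comm r w] at hrw
    linarith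
  obtain ⟨z, hz3, hz4⟩ := hlp3 _ _ h6
  refine ⟨n, z, hz4.mono (min_le_left _ _), fun k => ?_⟩
  have h8 := hz3 (k + n)
  rw [fw' g (by omega)] at h8
  have h9 := hz1 (k + n - m)
  have e1 : g^[k + n - m] (g^[m] (g.symm^[n] v)) = g^[k] v := by
    rw [← Function.iterate_add_apply]
    have e : k + n - m + m = k + n := by omega
    rw [e, Function.iterate_add_apply, iterR]
  rw [e1] at h9
  rw [← Function.iterate_add_apply]
  have h10 : ε₁ ≤ η / 2 := min_le_left _ _
  have h11 : ε₂ ≤ η / 2 := (min_le_right _ _).trans (min_le_left _ _)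
  have := dist_triangle (g^[k] v) (g^[k + n - m] z₁) (g^[k + n] z)
  linarith

/-- Uniform version of `conn`. -/
theorem conn_unif [CompactSpace X] {g : X ≃ₜ X} {c : ℝ} (h : LP g c) {R : Set X}
    (hR : MinAtt g.symm R) {r : X} (hr : r ∈ R) {ε η : ℝ} (hε : 0 < ε) (hη : 0 < η) :
    ∃ N : ℕ, ∀ v ∈ R, ∃ J ≤ N, ∃ z : X, SR g.symm ε r z ∧ SR g η v (g^[J] z) := by
  obtain ⟨δ, hδ, hlp⟩ := h.lp (min η (ε / 2)) (lt_min hη (half_pos hε))
  refine (hR.1.closed.isCompact).induction_on (p := fun S => ∃ N : ℕ, ∀ v ∈ S, ∃ J ≤ N, ∃ z : X,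
    SR g.symm ε r z ∧ SR g η v (g^[J] z)) ?_ ?_ ?_ ?_
  · exact ⟨0, fun v hv => absurd hv (notMem_empty v)⟩
  · rintro S T hST ⟨N, h1⟩
    exact ⟨N, fun v hv => h1 v (hST hv)⟩
  · rintro S T ⟨N, h1⟩ ⟨N', h2⟩
    refine ⟨max N N', fun v hv => ?_⟩
    rcases hv with hv | hv
    · obtain ⟨J, hJ, h3⟩ := h1 v hv
      exact ⟨J, hJ.trans (le_max_left _ _), h3⟩
    · obtain ⟨J, hJ, h3⟩ := h2 v hv
      exact ⟨J, hJ.trans (le_max_right _ _), h3⟩
  · intro v hv
    obtain ⟨J, z, hz1, hz2⟩ := conn h hR hr (half_pos hε) (half_pos hδ) hv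
    refine ⟨ball v (δ / 2), mem_nhdsWithin_of_mem_nhds (ball_mem_nhds v (half_pos hδ)), J,
      fun v' hv' => ?_⟩
    have h1 : dist v' (g^[J] z) < δ := by
      have h2 := hz2 0
      simp only [Function.iterate_zero, id] at h2
      have h3 : dist v' v < δ / 2 := hv'
      have := dist_triangle v' v (g^[J] z)
      linarith
    obtain ⟨z₃, h4, h5⟩ := hlp _ _ h1
    refine ⟨J, le_rfl, g.symm^[J] z₃, fun k => ?_, ?_⟩
    · have h6 := h5 (k + J)
      rw [Function.iterate_add_apply, iterL, Function.iterate_add_apply] at h6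
      have h7 := hz1 k
      have h8 := min_le_right η (ε / 2)
      have := dist_triangle (g.symm^[k] r) (g.symm^[k] z) (g.symm^[k] (g.symm^[J] z₃))
      linarith
    · rw [iterR]
      exact h4.mono (min_le_left _ _)

end Pool.Agent.Y330.G
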