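import Pool.Agent.Y330.G.A3

set_option autoImplicit false

open Filter Topology Set Metric

namespace Pool.Agent.Y330.G

open Pool.Agent.H789R2.AN

variable {X : Type*} [MetricSpace X]

/-- Stable separated sets in a repeller are transported to unstable separated sets. -/
theorem dual [CompactSpace X] {g : X ≃ₜ X} {c : ℝ} (h : LP g c) {R : Set X}
    (hR : MinAtt g.symm R) {r : X} (hr : r ∈ R) {ε η δ ε₀ : ℝ} (hε : 0 < ε) (hη : 0 < η)
    (hε₀ : ε₀ ≤ c) (hηc : η ≤ c) (hδη : 2 * η ≤ δ) :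
    ∃ N : ℕ, ∀ (n : ℕ), ∀ v₀ ∈ R, ∀ F : Finset X, Val g.symm ε₀ δ n v₀ F →
      ∃ F' : Finset X, (∀ y ∈ F', SR g.symm ε r y ∧ y ∈ R) ∧ Sep g (δ - 2 * η) (n + N) F' ∧
        F.card ≤ (N + 1) * F'.card := by
  classical
  obtain ⟨N, hN⟩ := conn_unif h hR hr hε hη
  refine ⟨N, fun n v₀ hv₀ F hF => ?_⟩
  have hFR : ∀ y ∈ F, g.symm^[n] y ∈ R := by
    intro y hy
    rw [inv_iter hR.1.inv]
    have h1 : SR g ε₀ v₀ y := hF.1 y hy
    exact hR.1.sat v₀ hv₀ y (WS.of_SR (h.cS _ _ (h1.mono hε₀)))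
  have hch : ∀ y, ∃ (J : ℕ) (z : X), y ∈ F → J ≤ N ∧ SR g.symm ε r z ∧
      SR g η (g.symm^[n] y) (g^[J] z) := by
    intro y
    by_cases hy : y ∈ F
    · obtain ⟨J, hJ, z, h1, h2⟩ := hN _ (hFR y hy)
      exact ⟨J, z, fun _ => ⟨hJ, h1, h2⟩⟩
    · exact ⟨0, y, fun h => absurd h hy⟩
  choose J z hJz using hch
  obtain ⟨J₀, hJ₀, hmax⟩ := Finset.exists_max_image (Finset.range (N + 1))
    (fun i => (F.filter (fun y => J y = i)).card) ⟨0, by simp⟩
  have hcard : F.card ≤ (F.filter (fun y => J y = J₀)).card * (Finset.range (N + 1)).card :=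
    Finset.card_le_mul_card_image_of_maps_to (f := J)
      (fun y hy => Finset.mem_range.mpr (by have := (hJz y hy).1; omega)) _ hmax
  rw [Finset.card_range] at hcard
  have hJ₀N : J₀ ≤ N := by
    have := Finset.mem_range.mp hJ₀
    omega
  have hsep : ∀ y ∈ F.filter (fun y => J y = J₀), ∀ y' ∈ F.filter (fun y => J y = J₀), y ≠ y' →
      ∃ k ≤ n + N, δ - 2 * η < dist (g^[k] (z y)) (g^[k] (z y')) := by
    intro y hy y' hy' hne
    rw [Finset.mem_filter] at hy hy'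
    obtain ⟨i, hi, h1⟩ := hF.2 y hy.1 y' hy'.1 hne
    refine ⟨n - i + J₀, by omega, ?_⟩
    have h2 := (hJz y hy.1).2.2 (n - i)
    have h3 := (hJz y' hy'.1).2.2 (n - i)
    rw [hy.2, fw g (by omega), ← Function.iterate_add_apply] at h2
    rw [hy'.2, fw g (by omega), ← Function.iterate_add_apply] at h3
    have e : n - (n - i) = i := by omega
    rw [e] at h2 h3
    have := dist_triangle4_right (g.symm^[i] y) (g.symm^[i] y') (g^[n - i + J₀] (z y))
      (g^[n - i + J₀] (z y'))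
    linarith
  refine ⟨(F.filter (fun y => J y = J₀)).image z, ?_, ?_, ?_⟩
  · intro a ha
    obtain ⟨y, hy, rfl⟩ := Finset.mem_image.mp ha
    rw [Finset.mem_filter] at hy
    have h1 := hJz y hy.1
    refine ⟨h1.2.1, ?_⟩
    have h2 : WS g (g.symm^[n] y) (g^[J y] (z y)) := WS.of_SR (h.cS _ _ (h1.2.2.mono hηc))
    have h3 := hR.1.sat _ (hFR y hy.1) _ h2
    exact (inv_iter (fun x => by rw [← hR.1.inv (g x), g.symm_apply_apply]) (J y) (z y)).mp h3
  · intro a ha b hb hab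
    obtain ⟨y, hy, rfl⟩ := Finset.mem_image.mp ha
    obtain ⟨y', hy', rfl⟩ := Finset.mem_image.mp hb
    exact hsep y hy y' hy' fun e => hab (by rw [e])
  · rw [Finset.card_image_of_injOn, mul_comm]
    · exact hcard
    · intro y hy y' hy' hyy
      by_contra hne
      obtain ⟨k, -, hk⟩ := hsep y hy y' hy' hne
      rw [hyy, dist_self] at hk
      linarith

end Pool.Agent.Y330.G
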