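import Pool.Agent.Y330.G.A5

set_option autoImplicit false

open Filter Topology Set Metric

namespace Pool.Agent.Y330.G

open Pool.Agent.H789R2.AN

variable {X : Type*} [MetricSpace X]

/-- The smallest growth. -/
noncomputable def Lo (g : X ≃ₜ X) (ε δ : ℝ) (n : ℕ) : ℕ := sInf (range fun x => P g ε δ n x)

theorem Lo_le (g : X ≃ₜ X) (ε δ : ℝ) (n : ℕ) (x : X) : Lo g ε δ n ≤ P g ε δ n x :=
  Nat.sInf_le (mem_range_self x)

theorem Lo_att [Nonempty X] (g : X ≃ₜ X) (ε δ : ℝ) (n : ℕ) : ∃ x, P g ε δ n x = Lo g ε δ n :=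
  Nat.sInf_mem (range_nonempty _)

theorem A_le_Lo [CompactSpace X] [Nonempty X] {g : X ≃ₜ X} {ε δ : ℝ} (hδ : 0 < δ) {C n : ℕ}
    (h : ∀ x y, P g ε δ n x ≤ C * P g ε δ n y) : A g ε δ n ≤ C * Lo g ε δ n := by
  obtain ⟨x, F, hF, h1⟩ := A_att g ε hδ n
  obtain ⟨y, hy⟩ := Lo_att g ε δ n
  rw [← h1, ← hy]
  exact (P_le hδ hF).trans (h x y)

/-- Arithmetic: with uniform growth on both sides the orbits leaving a repeller are too many. -/
theorem numeric {a a' L L' : ℕ → ℕ} {C C' K K' Ks j₀ : ℕ} (ha : ∀ n, 1 ≤ a n)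
    (hL'1 : ∀ n, 1 ≤ L' n)
    (h1 : ∀ n, a n ≤ C * L n) (h2 : ∀ n, a' n ≤ C' * L' n)
    (hs : ∀ n m, a (n + m) ≤ Ks * (a n * a m))
    (hI : ∀ m n, j₀ * m ≤ n → ∑ i ∈ Finset.range m, L' (j₀ * (i + 1)) * L (n - j₀ * (i + 1)) ≤
      K * a n)
    (hII : ∀ m n, j₀ * m ≤ n → ∑ i ∈ Finset.range m, L (j₀ * (i + 1)) * L' (n - j₀ * (i + 1)) ≤
      K' * a' n) : False := by
  have h3 : ∀ i, a (j₀ * (i + 1)) ≤ C * K' * C' * L' (j₀ * (i + 1)) := by
    intro i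
    have h4 := hII (i + 1) (j₀ * (i + 1)) le_rfl
    have h5 : L (j₀ * (i + 1)) * L' (j₀ * (i + 1) - j₀ * (i + 1)) ≤
        ∑ i' ∈ Finset.range (i + 1), L (j₀ * (i' + 1)) * L' (j₀ * (i + 1) - j₀ * (i' + 1)) :=
      Finset.single_le_sum (f := fun i' => L (j₀ * (i' + 1)) *
        L' (j₀ * (i + 1) - j₀ * (i' + 1))) (fun _ _ => Nat.zero_le _)
        (Finset.mem_range.mpr (Nat.lt_succ_self i))
    have h6 : L (j₀ * (i + 1)) ≤ L (j₀ * (i + 1)) * L' (j₀ * (i + 1) - j₀ * (i + 1)) :=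
      Nat.le_mul_of_pos_right _ (hL'1 _)
    calc a (j₀ * (i + 1)) ≤ C * L (j₀ * (i + 1)) := h1 _
      _ ≤ C * (K' * a' (j₀ * (i + 1))) := Nat.mul_le_mul_left _ (h6.trans (h5.trans h4))
      _ ≤ C * (K' * (C' * L' (j₀ * (i + 1)))) :=
        Nat.mul_le_mul_left _ (Nat.mul_le_mul_left _ (h2 _))
      _ = _ := by ring
  set B := Ks * (C * K' * C') * C with hB
  have h4 : ∀ m, m * a (j₀ * m) ≤ B * K * a (j₀ * m) := by
    intro m
    have h5 : ∀ i ∈ Finset.range m, a (j₀ * m) ≤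
        B * (L' (j₀ * (i + 1)) * L (j₀ * m - j₀ * (i + 1))) := by
      intro i hi
      have hi' : j₀ * (i + 1) ≤ j₀ * m := Nat.mul_le_mul_left _ (Finset.mem_range.mp hi)
      have e : j₀ * (i + 1) + (j₀ * m - j₀ * (i + 1)) = j₀ * m := by omega
      calc a (j₀ * m) = a (j₀ * (i + 1) + (j₀ * m - j₀ * (i + 1))) := by rw [e]
        _ ≤ Ks * (a (j₀ * (i + 1)) * a (j₀ * m - j₀ * (i + 1))) := hs _ _
        _ ≤ Ks * ((C * K' * C' * L' (j₀ * (i + 1))) * (C * L (j₀ * m - j₀ * (i + 1)))) :=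
          Nat.mul_le_mul_left _ (Nat.mul_le_mul (h3 i) (h1 _))
        _ = _ := by rw [hB]; ring
    calc m * a (j₀ * m) = ∑ i ∈ Finset.range m, a (j₀ * m) := by
          rw [Finset.sum_const, Finset.card_range, smul_eq_mul]
      _ ≤ ∑ i ∈ Finset.range m, B * (L' (j₀ * (i + 1)) * L (j₀ * m - j₀ * (i + 1))) :=
          Finset.sum_le_sum h5
      _ = B * ∑ i ∈ Finset.range m, (L' (j₀ * (i + 1)) * L (j₀ * m - j₀ * (i + 1))) := by
          rw [Finset.mul_sum]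
      _ ≤ B * (K * a (j₀ * m)) := Nat.mul_le_mul_left _ (hI m _ le_rfl)
      _ = _ := by ring
  have h5 := h4 (B * K + 1)
  have h6 := ha (j₀ * (B * K + 1))
  have h7 := Nat.le_of_mul_le_mul_right h5 h6
  omega

/-- With uniform growth of the local unstable and stable sets there is no proper attractor. -/
theorem unique_std [CompactSpace X] [ConnectedSpace X] {g : X ≃ₜ X} {c : ℝ} (h : LP g c)
    {C C' : ℕ}
    (Hu : ∀ n x y, P g (c / 4) (c / 2) n x ≤ C * P g (c / 4) (c / 2) n y)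
    (Hs : ∀ n x y, P g.symm (c / 4) (c / 2) n x ≤ C' * P g.symm (c / 4) (c / 2) n y) :
    ∀ S, IsAtt g S → S = univ := by
  intro S hS
  by_contra hne
  have hc := h.c_pos
  -- a proper repeller
  obtain ⟨z, hz⟩ := (ne_univ_iff_exists_notMem S).mp hne
  obtain ⟨w, hw, -⟩ := exists_repeller h hS hz
  have hrep : IsAtt g.symm (Bas g S)ᶜ := by
    refine ⟨(isOpen_bas h hS).isClosed_compl, ⟨w, hw⟩, ?_, ?_⟩
    · intro x
      rw [mem_compl_iff, mem_compl_iff, not_iff_not]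
      have := bas_map (g := g) (φ := g) (fun _ => rfl) hS.inv (g.symm x)
      rw [g.apply_symm_apply] at this
      exact this.symm
    · intro x hx y hxy hy
      obtain ⟨s, hs, h1⟩ := hy
      exact hx ⟨s, hs, WS.trans (g := g) hxy h1⟩
  obtain ⟨R, hRs, hR⟩ := exists_minAtt hrep
  have hRne : R ≠ univ := by
    intro e
    obtain ⟨s, hs⟩ := hS.nonempty
    have : s ∈ (Bas g S)ᶜ := hRs (by rw [e]; trivial)
    exact this (subset_bas g S hs)
  -- a proper attractor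
  obtain ⟨S', hSs, hS'⟩ := exists_minAtt hS
  have hSne : S' ≠ univ := by
    intro e
    exact hz (hSs (by rw [e]; trivial))
  obtain ⟨K, -, j₂, hI⟩ := rep_ineq h hR hRne
  obtain ⟨K', -, j₂', hII⟩ := rep_ineq h.symm (R := S') hS' hSne
  obtain ⟨Ks, -, hs⟩ := A_submult h (ε := c / 4) (δ := c / 2) (by linarith) (by linarith)
    (by linarith) (by linarith)
  have hδ : 0 < c / 2 := by linarith
  refine numeric (a := A g (c / 4) (c / 2)) (a' := A g.symm (c / 4) (c / 2))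
    (L := Lo g (c / 4) (c / 2)) (L' := Lo g.symm (c / 4) (c / 2)) (C := C) (C' := C')
    (K := K) (K' := K') (Ks := Ks) (j₀ := max j₂ j₂') ?_ ?_ ?_ ?_ hs ?_ ?_
  · intro n
    exact (one_le_P g (by linarith) hδ n z).trans (P_le_A hδ n z)
  · intro n
    obtain ⟨x, hx⟩ := Lo_att g.symm (c / 4) (c / 2) n
    rw [← hx]
    exact one_le_P g.symm (by linarith) hδ n x
  · intro n
    exact A_le_Lo hδ (Hu n)
  · intro n
    exact A_le_Lo hδ (Hs n)
  · exact hI _ (le_max_left _ _) _ _ (Lo_le g _ _) (Lo_le g.symm _ _)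
  · exact hII _ (le_max_right _ _) _ _ (Lo_le g.symm _ _) (Lo_le g _ _)

/-- Change of the parameters. -/
theorem std_of [CompactSpace X] {g : X ≃ₜ X} {c : ℝ} (h : LP g c) {ε δ ε' δ' : ℝ}
    (hε0 : 0 < ε) (hε : 2 * ε ≤ c) (hδ0 : 0 < δ) (hδ : 2 * δ ≤ c) (hε' : 2 * ε' ≤ c)
    (hδ'0 : 0 < δ') {C : ℕ} (H : ∀ n x y, P g ε δ n x ≤ C * P g ε' δ' n y) :
    ∃ C' : ℕ, ∀ n x y, P g (c / 4) (c / 2) n x ≤ C' * P g (c / 4) (c / 2) n y := by
  have hc := h.c_pos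
  obtain ⟨K₁, -, j₁, h1⟩ := P_gen h (ε := c / 4) (ε' := ε) (δ := c / 2) (δ' := δ) (by linarith)
    hε0 hε (by linarith) hδ0 hδ
  obtain ⟨K₂, -, j₂, h2⟩ := P_gen h (ε := ε') (ε' := c / 4) (δ := δ') (δ' := c / 2) hε'
    (by linarith) (by linarith) hδ'0 (by linarith) (by linarith)
  refine ⟨K₁ * (C * K₂), fun n x y => ?_⟩
  have h3 := h2 n (g^[j₂] y)
  rw [iterL] at h3
  calc P g (c / 4) (c / 2) n x ≤ K₁ * P g ε δ n (g.symm^[j₁] x) := h1 n x
    _ ≤ K₁ * (C * P g ε' δ' n (g^[j₂] y)) := Nat.mul_le_mul_left _ (H _ _ _)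
    _ ≤ K₁ * (C * (K₂ * P g (c / 4) (c / 2) n y)) :=
      Nat.mul_le_mul_left _ (Nat.mul_le_mul_left _ h3)
    _ = _ := by ring

end Pool.Agent.Y330.G
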