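import Pool.Agent.Y330.G.A6

set_option autoImplicit false

open Filter Topology Set Metric

namespace Pool.Agent.Y330.G

open Pool.Agent.H789R2.AN

variable {X : Type*} [MetricSpace X]

/-- If there is no proper repeller, all unstable sets are uniformly spread by the dynamics. -/
theorem conn_all [CompactSpace X] [Nonempty X] {g : X ≃ₜ X} {c : ℝ} (h : LP g c)
    (hmin : ∀ S, IsAtt g.symm S → S = univ) {ε η : ℝ} (hε : 0 < ε) (hε1 : ε ≤ c) (hη : 0 < η) :
    ∃ N : ℕ, ∀ r v : X, ∃ J ≤ N, ∃ z : X, SR g.symm ε r z ∧ SR g η v (g^[J] z) := by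
  have hU : MinAtt g.symm (univ : Set X) :=
    ⟨⟨isClosed_univ, univ_nonempty, fun _ => by simp, fun _ _ _ _ => mem_univ _⟩,
      fun B hB _ => by rw [hmin B hB]⟩
  have key : ∃ N : ℕ, ∀ r ∈ (univ : Set X), ∀ v : X, ∃ J ≤ N, ∃ z : X,
      SR g.symm ε r z ∧ SR g η v (g^[J] z) := by
    refine isCompact_univ.induction_on (p := fun S => ∃ N : ℕ, ∀ r ∈ S, ∀ v : X, ∃ J ≤ N,
      ∃ z : X, SR g.symm ε r z ∧ SR g η v (g^[J] z)) ?_ ?_ ?_ ?_
    · exact ⟨0, fun v hv => absurd hv (notMem_empty v)⟩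
    · rintro S T hST ⟨N, h1⟩
      exact ⟨N, fun v hv => h1 v (hST hv)⟩
    · rintro S T ⟨N, h1⟩ ⟨N', h2⟩
      refine ⟨max N N', fun r hr v => ?_⟩
      rcases hr with hr | hr
      · obtain ⟨J, hJ, h3⟩ := h1 r hr v
        exact ⟨J, hJ.trans (le_max_left _ _), h3⟩
      · obtain ⟨J, hJ, h3⟩ := h2 r hr v
        exact ⟨J, hJ.trans (le_max_right _ _), h3⟩
    · intro r _
      obtain ⟨N, hN⟩ := conn_unif h hU (mem_univ r) (half_pos hε) (half_pos hη)
      obtain ⟨δ, hδ, hh⟩ := hol h (show 0 < min (ε / 2) (η / 2) from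
        lt_min (half_pos hε) (half_pos hη))
      refine ⟨ball r δ, mem_nhdsWithin_of_mem_nhds (ball_mem_nhds r hδ), N, fun r' hr' v => ?_⟩
      obtain ⟨J, hJ, z, hz1, hz2⟩ := hN v (mem_univ v)
      obtain ⟨z', h1, h2⟩ := hh (ε / 2) (by linarith) r r' z
        (by rw [dist_comm]; exact hr') hz1
      refine ⟨J, hJ, z', h2.mono ?_, fun k => ?_⟩
      · have := min_le_left (ε / 2) (η / 2)
        linarith
      · have h3 := h1 (k + J)
        rw [Function.iterate_add_apply, Function.iterate_add_apply] at h3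
        have h4 := hz2 k
        have h5 := min_le_right (ε / 2) (η / 2)
        have := dist_triangle (g^[k] v) (g^[k] (g^[J] z)) (g^[k] (g^[J] z'))
        linarith
  obtain ⟨N, hN⟩ := key
  exact ⟨N, fun r v => hN r (mem_univ r) v⟩

/-- Without proper repellers the growth of the local unstable sets is uniform. -/
theorem growth_of_min [CompactSpace X] [Nonempty X] {g : X ≃ₜ X} {c : ℝ} (h : LP g c)
    (hmin : ∀ S, IsAtt g.symm S → S = univ) :
    ∃ C : ℕ, ∀ n x y, P g (c / 4) (c / 2) n x ≤ C * P g (c / 4) (c / 2) n y := by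
  classical
  have hc := h.c_pos
  obtain ⟨δ, hδ, hh⟩ := hol h (show 0 < c / 16 by linarith)
  obtain ⟨N, hN⟩ := conn_all h hmin (ε := c) (η := δ / 2) hc le_rfl (half_pos hδ)
  obtain ⟨J₀, hJ₀⟩ := pw (c := c) (show 0 < c / 8 by linarith)
  obtain ⟨K₁, -, h1⟩ := sep_short h (ε := c / 4) (δ := 3 * c / 8) (by linarith) (by linarith)
    (by linarith) (N + J₀)
  obtain ⟨K₂, -, h2⟩ := P_chg h (ε := c / 4) (δ := 3 * c / 8) (δ' := c / 2) (by linarith)
    (by linarith) (by linarith) (by linarith)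
  refine ⟨K₁ * K₂, fun n x y => ?_⟩
  obtain ⟨F, hF, hFc⟩ := P_att g (c / 4) (show 0 < c / 2 by linarith) n x
  obtain ⟨J, hJ, z, hz1, hz2⟩ := hN (g^[J₀] y) x
  have hxz : dist x (g^[J] z) < δ := by
    have := hz2 0
    simp only [Function.iterate_zero, id] at this
    linarith
  have hch : ∀ p, ∃ p', p ∈ F → SR g (c / 16) p p' ∧ SR g.symm (c / 4 + c / 16) (g^[J] z) p' := by
    intro p
    by_cases hp : p ∈ F
    · obtain ⟨p', h3⟩ := hh (c / 4) (by linarith) x (g^[J] z) p hxz (hF.1 p hp)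
      exact ⟨p', fun _ => h3⟩
    · exact ⟨p, fun h => absurd h hp⟩
  choose φ hφ using hch
  have hsep : ∀ p ∈ F, ∀ p' ∈ F, p ≠ p' → ∃ k ≤ n, 3 * c / 8 < dist (g^[k] (φ p)) (g^[k] (φ p')) := by
    intro p hp p' hp' hne
    obtain ⟨k, hk, h3⟩ := hF.2 p hp p' hp' hne
    refine ⟨k, hk, ?_⟩
    have h4 := (hφ p hp).1 k
    have h5 := (hφ p' hp').1 k
    have := dist_triangle4_right (g^[k] p) (g^[k] p') (g^[k] (φ p)) (g^[k] (φ p'))
    linarith
  have hinj : Set.InjOn φ F := by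
    intro p hp p' hp' he
    by_contra hne
    obtain ⟨k, -, hk⟩ := hsep p hp p' hp' hne
    rw [he, dist_self] at hk
    linarith
  have hs1 : Sep g (3 * c / 8) n (F.image φ) := by
    intro a ha b hb hab
    obtain ⟨p, hp, rfl⟩ := Finset.mem_image.mp ha
    obtain ⟨p', hp', rfl⟩ := Finset.mem_image.mp hb
    exact hsep p hp p' hp' fun e => hab (by rw [e])
  have hs2 := sep_back hs1 (J + J₀)
  have hs3 : Sep g (3 * c / 8) (n + (N + J₀)) ((F.image φ).image (g.symm^[J + J₀])) :=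
    hs2.mono le_rfl (by omega)
  have hu : ∀ q ∈ (F.image φ).image (g.symm^[J + J₀]), SR g.symm (c / 4) y q := by
    intro q hq
    obtain ⟨q', hq', rfl⟩ := Finset.mem_image.mp hq
    obtain ⟨p, hp, rfl⟩ := Finset.mem_image.mp hq'
    intro i
    have h3 := h.cU _ _ hz1 (i + J₀)
    have h4 := h.cU _ _ ((hφ p hp).2.mono (show c / 4 + c / 16 ≤ c by linarith)) (i + (J + J₀))
    rw [bk' g (show J₀ ≤ i + J₀ by omega), Nat.add_sub_cancel] at h3
    have e : i + (J + J₀) - J = i + J₀ := by omega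
    rw [bk' g (show J ≤ i + (J + J₀) by omega), e,
      Function.iterate_add_apply g.symm i (J + J₀) (φ p)] at h4
    have h5 := (pw_anti hc (show J₀ ≤ i + J₀ by omega)).trans hJ₀
    have h6 := (pw_anti hc (show J₀ ≤ i + (J + J₀) by omega)).trans hJ₀
    have := dist_triangle (g.symm^[i] y) (g.symm^[i + J₀] z) (g.symm^[i] (g.symm^[J + J₀] (φ p)))
    linarith
  obtain ⟨F₁, h3, h4, h5⟩ := h1 n y _ hu hs3
  rw [Finset.card_image_of_injective _ (g.symm.injective.iterate _),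
    Finset.card_image_of_injOn hinj] at h5
  calc P g (c / 4) (c / 2) n x = F.card := hFc.symm
    _ ≤ K₁ * F₁.card := h5
    _ ≤ K₁ * P g (c / 4) (3 * c / 8) n y :=
      Nat.mul_le_mul_left _ (P_le (by linarith) ⟨fun q hq => hu q (h3 hq), h4⟩)
    _ ≤ K₁ * (K₂ * P g (c / 4) (c / 2) n y) := Nat.mul_le_mul_left _ (h2 n y)
    _ = _ := by ring

/-- No proper attractor if and only if no proper repeller. -/
theorem no_rep [CompactSpace X] [Nonempty X] {g : X ≃ₜ X} {c : ℝ} (h : LP g c)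
    (hmin : ∀ S, IsAtt g S → S = univ) : ∀ S, IsAtt g.symm S → S = univ := by
  intro S hS
  by_contra hne
  obtain ⟨z, hz⟩ := (ne_univ_iff_exists_notMem S).mp hne
  obtain ⟨w, hw, -⟩ := exists_repeller h.symm hS hz
  have hrep : IsAtt g (Bas g.symm S)ᶜ := by
    refine ⟨(isOpen_bas h.symm hS).isClosed_compl, ⟨w, hw⟩, ?_, ?_⟩
    · intro x
      rw [mem_compl_iff, mem_compl_iff, not_iff_not]
      have := bas_map (g := g.symm) (φ := g.symm) (fun _ => rfl) hS.inv (g x)
      rw [g.symm_apply_apply] at this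
      exact this.symm
    · intro x hx y hxy hy
      obtain ⟨s, hs, h1⟩ := hy
      exact hx ⟨s, hs, WS.trans (g := g.symm) hxy h1⟩
  obtain ⟨s, hs⟩ := hS.nonempty
  have := hmin _ hrep
  have h2 : s ∈ (Bas g.symm S)ᶜ := by rw [this]; trivial
  exact h2 (subset_bas g.symm S hs)

end Pool.Agent.Y330.G
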