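import Pool.Agent.Y330.G.A7
import Pool.Agent.H789R2.AN.Man

set_option autoImplicit false
set_option linter.unusedSectionVars false

open Filter Topology Set Metric

namespace Pool.Agent.Y330.G

open Pool.Agent.H789R2.AN Pool.Agent.H721R2

theorem ith_iter {X : Type*} [MetricSpace X] (f : X ≃ₜ X) (N k : ℕ) (x : X) :
    (iterHomeo f N)^[k] x = f^[N * k] x := by
  rw [Function.iterate_mul]; rfl

theorem ith_symm_iter {X : Type*} [MetricSpace X] (f : X ≃ₜ X) (N k : ℕ) (x : X) :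
    (iterHomeo f N).symm^[k] x = f.symm^[N * k] x := by
  rw [Function.iterate_mul]; rfl

theorem ith_symm {X : Type*} [MetricSpace X] (f : X ≃ₜ X) (N : ℕ) :
    (iterHomeo f N).symm = iterHomeo f.symm N := by
  ext x; rfl

/-- Transitive maps have no proper attractors. -/
theorem univ_of_tr {X : Type*} [MetricSpace X] [CompactSpace X] {g : X ≃ₜ X} {N : ℕ}
    (hN : 1 ≤ N) {c : ℝ} (h : LP (iterHomeo g N) c) (ht : TopTransitive (g : X → X)) {A : Set X}
    (hA : IsAtt (iterHomeo g N) A) (hinv : ∀ x, g x ∈ A ↔ x ∈ A) : A = univ := by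
  rw [eq_univ_iff_forall]
  intro y
  by_contra hy
  obtain ⟨r, hr, hball⟩ := Metric.isOpen_iff.mp hA.closed.isOpen_compl y hy
  obtain ⟨η, hη, h1⟩ := uc g g.continuous N (half_pos hr)
  obtain ⟨δ, hδ, hlp⟩ := h.lp (min (η / 2) c) (lt_min (half_pos hη) h.c_pos)
  obtain ⟨a, ha⟩ := hA.nonempty
  obtain ⟨n, z, ⟨x, hx, rfl⟩, hz⟩ := ht (ball a δ) (ball y (r / 2)) isOpen_ball
    ⟨a, mem_ball_self hδ⟩ isOpen_ball ⟨y, mem_ball_self (half_pos hr)⟩
  obtain ⟨w, hw1, hw2⟩ := hlp x a (mem_ball.mp hx)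
  have hwA : w ∈ A := hA.sat a ha w (WS.of_SR (h.cU _ _ (hw2.mono (min_le_right _ _))))
  have hnn : n = n % N + N * (n / N) := (Nat.mod_add_div n N).symm
  have h2 := hw1 (n / N)
  rw [ith_iter, ith_iter] at h2
  have h3 := h1 (n % N) (Nat.mod_lt _ (by omega)).le _ _
    (h2.trans_lt ((min_le_left _ _).trans_lt (half_lt_self hη)))
  rw [← Function.iterate_add_apply, ← Function.iterate_add_apply, ← hnn] at h3
  have h4 : g^[n] w ∈ A := (inv_iter hinv n w).mpr hwA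
  have h5 : g^[n] w ∈ ball y r := by
    rw [mem_ball]
    have h6 := mem_ball.mp hz
    have h7 := dist_triangle_left (g^[n] w) y (g^[n] x)
    linarith
  exact hball h5 h4

/-- For a power with local product structure: transitivity means that there are no proper
attractors. -/
theorem trans_iff {Y : Type*} [MetricSpace Y] [CompactSpace Y] [ConnectedSpace Y] {f : Y ≃ₜ Y}
    {N : ℕ} (hN : 1 ≤ N) {c : ℝ} (h : LP (iterHomeo f N) c) :
    TopTransitive (f : Y → Y) ↔ ∀ S, IsAtt (iterHomeo f N) S → S = univ := by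
  constructor
  · intro ht
    obtain ⟨h1, h2⟩ := tot_att (g := iterHomeo f N) (φ := f) h (fun x => by
      show f (f^[N] x) = f^[N] (f x)
      rw [← Function.iterate_succ_apply' f N x, Function.iterate_succ_apply])
    exact unique_att h (univ_of_tr hN h ht h1 h2)
  · intro hS U V hU hUn hV hVn
    obtain ⟨n, hn⟩ := transitive_of_unique h hS U V hU hUn hV hVn
    refine ⟨N * n, ?_⟩
    have e : (iterHomeo f N)^[n] = f^[N * n] := by
      funext x
      exact ith_iter f N n x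
    rwa [e] at hn

section two

variable {X Y : Type*} [MetricSpace X] [CompactSpace X] [MetricSpace Y] [CompactSpace Y]

theorem conj_iter {φ : X ≃ₜ Y} {f : X ≃ₜ X} {f' : Y ≃ₜ Y} (hφ : ∀ x, φ (f x) = f' (φ x)) (n : ℕ)
    (x : X) : φ (f^[n] x) = f'^[n] (φ x) :=
  (Function.Semiconj.iterate_right (f := φ) (ga := f) (gb := f') hφ n) x

theorem conj_symm {φ : X ≃ₜ Y} {f : X ≃ₜ X} {f' : Y ≃ₜ Y} (hφ : ∀ x, φ (f x) = f' (φ x)) (x : X) :
    φ (f.symm x) = f'.symm (φ x) := by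
  apply f'.injective
  rw [← hφ, f.apply_symm_apply, f'.apply_symm_apply]

theorem conj_inv {φ : X ≃ₜ Y} {f : X ≃ₜ X} {f' : Y ≃ₜ Y} (hφ : ∀ x, φ (f x) = f' (φ x)) (y : Y) :
    φ.symm (f' y) = f (φ.symm y) := by
  apply φ.injective
  rw [φ.apply_symm_apply, hφ, φ.apply_symm_apply]

theorem two_uc {φ : X ≃ₜ Y} {f : X ≃ₜ X} (N : ℕ) {ε : ℝ} (hε : 0 < ε) :
    ∃ ε' > 0, ∀ i ≤ N, ∀ a b : Y, dist a b ≤ ε' →
      dist (f^[i] (φ.symm a)) (f^[i] (φ.symm b)) ≤ ε := by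
  obtain ⟨η, hη, h1⟩ := uc f f.continuous N hε
  have hu : UniformContinuous φ.symm :=
    CompactSpace.uniformContinuous_of_continuous φ.symm.continuous
  obtain ⟨η', hη', h2⟩ := Metric.uniformContinuous_iff.mp hu η hη
  exact ⟨η' / 2, half_pos hη', fun i hi a b hab => (h1 i hi _ _ (h2 (by linarith))).le⟩

theorem one_uc (φ : X ≃ₜ Y) {ε : ℝ} (hε : 0 < ε) :
    ∃ ε' > 0, ∀ a b : X, dist a b ≤ ε' → dist (φ a) (φ b) ≤ ε := by
  have hu : UniformContinuous φ := CompactSpace.uniformContinuous_of_continuous φ.continuous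
  obtain ⟨η', hη', h2⟩ := Metric.uniformContinuous_iff.mp hu ε hε
  exact ⟨η' / 2, half_pos hη', fun a b hab => (h2 (by linarith)).le⟩

theorem cmpA {φ : X ≃ₜ Y} {f : X ≃ₜ X} {f' : Y ≃ₜ Y} (hφ : ∀ x, φ (f x) = f' (φ x)) {N : ℕ}
    (hN : 1 ≤ N) {δ δ' : ℝ} (hδ0 : 0 < δ) (hδ : ∀ a b : X, dist a b ≤ δ → dist (φ a) (φ b) ≤ δ')
    {ε : ℝ} (hε : 0 < ε) : ∃ ε' > 0, ∀ (m : ℕ) (x : X),
      P (iterHomeo f' N) ε' δ' m (φ x) ≤ P f ε δ (N * m) x := by
  classical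
  obtain ⟨ε', hε', h1⟩ := two_uc (φ := φ) (f := f.symm) N hε
  refine ⟨ε', hε', fun m x => ?_⟩
  refine csSup_le' ?_
  rintro _ ⟨F, hF, rfl⟩
  rw [← Finset.card_image_of_injective F φ.symm.injective]
  apply P_le hδ0
  constructor
  · intro a ha
    obtain ⟨y, hy, rfl⟩ := Finset.mem_image.mp ha
    intro n
    have hnn : n = n % N + N * (n / N) := (Nat.mod_add_div n N).symm
    have h2 := hF.1 y hy (n / N)
    rw [ith_symm_iter, ith_symm_iter] at h2
    have h3 := h1 (n % N) (Nat.mod_lt _ (by omega)).le _ _ h2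
    have e1 : ∀ z : Y, f.symm^[n] (φ.symm z) =
        f.symm^[n % N] (φ.symm (f'.symm^[N * (n / N)] z)) := by
      intro z
      have h4 : φ.symm (f'.symm^[N * (n / N)] z) = f.symm^[N * (n / N)] (φ.symm z) := by
        apply φ.injective
        rw [φ.apply_symm_apply, conj_iter (f := f.symm) (f' := f'.symm) (conj_symm hφ),
          φ.apply_symm_apply]
      rw [h4, ← Function.iterate_add_apply, ← hnn]
    have e2 : x = φ.symm (φ x) := (φ.symm_apply_apply x).symm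
    have e3 := e1 (φ x)
    rw [φ.symm_apply_apply] at e3
    rw [e1, e3]
    exact h3
  · intro a ha b hb hab
    obtain ⟨y, hy, rfl⟩ := Finset.mem_image.mp ha
    obtain ⟨z, hz, rfl⟩ := Finset.mem_image.mp hb
    obtain ⟨k, hk, h2⟩ := hF.2 y hy z hz fun e => hab (by rw [e])
    refine ⟨N * k, Nat.mul_le_mul_left _ hk, ?_⟩
    rw [ith_iter, ith_iter] at h2
    by_contra hcon
    push Not at hcon
    have h3 := hδ _ _ hcon
    rw [conj_iter hφ, conj_iter hφ, φ.apply_symm_apply, φ.apply_symm_apply] at h3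
    linarith

theorem cmpB {φ : X ≃ₜ Y} {f : X ≃ₜ X} {f' : Y ≃ₜ Y} (hφ : ∀ x, φ (f x) = f' (φ x)) {N : ℕ}
    (hN : 1 ≤ N) {ε ε' : ℝ} (hε : ∀ a b : X, dist a b ≤ ε → dist (φ a) (φ b) ≤ ε')
    {δ : ℝ} (hδ : 0 < δ) : ∃ δ' > 0, ∀ (n : ℕ) (x : X),
      P f ε δ n x ≤ P (iterHomeo f' N) ε' δ' (n / N) (φ x) := by
  classical
  obtain ⟨δ', hδ', h1⟩ := two_uc (φ := φ) (f := f) N hδ
  refine ⟨δ', hδ', fun n x => ?_⟩
  refine csSup_le' ?_
  rintro _ ⟨F, hF, rfl⟩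
  rw [← Finset.card_image_of_injective F φ.injective]
  apply P_le hδ'
  constructor
  · intro a ha
    obtain ⟨y, hy, rfl⟩ := Finset.mem_image.mp ha
    intro n
    rw [ith_symm_iter, ith_symm_iter]
    have h2 := hε _ _ (hF.1 y hy (N * n))
    rwa [conj_iter (f := f.symm) (f' := f'.symm) (conj_symm hφ),
      conj_iter (f := f.symm) (f' := f'.symm) (conj_symm hφ)] at h2
  · intro a ha b hb hab
    obtain ⟨y, hy, rfl⟩ := Finset.mem_image.mp ha
    obtain ⟨z, hz, rfl⟩ := Finset.mem_image.mp hb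
    obtain ⟨k, hk, h2⟩ := hF.2 y hy z hz fun e => hab (by rw [e])
    refine ⟨k / N, Nat.div_le_div_right hk, ?_⟩
    rw [ith_iter, ith_iter]
    by_contra hcon
    push Not at hcon
    have h3 := h1 (k % N) (Nat.mod_lt _ (by omega)).le _ _ hcon
    have hnn : k = k % N + N * (k / N) := (Nat.mod_add_div k N).symm
    have e1 : ∀ z : X, f^[k % N] (φ.symm (f'^[N * (k / N)] (φ z))) = f^[k] z := by
      intro z
      rw [← conj_iter hφ, φ.symm_apply_apply, ← Function.iterate_add_apply, ← hnn]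
    rw [e1, e1] at h3
    linarith

theorem P_mono_n {g : X ≃ₜ X} {ε δ : ℝ} (hδ : 0 < δ) {n n' : ℕ} (hn : n ≤ n') (x : X) :
    P g ε δ n x ≤ P g ε δ n' x := by
  obtain ⟨F, hF, h1⟩ := P_att g ε hδ n x
  rw [← h1]
  exact P_le hδ ⟨hF.1, hF.2.mono le_rfl hn⟩

/-- Uniform growth for `f` at small scales is equivalent to uniform growth of the power. -/
theorem growth_iff {φ : X ≃ₜ Y} {f : X ≃ₜ X} {f' : Y ≃ₜ Y} (hφ : ∀ x, φ (f x) = f' (φ x)) {N : ℕ}
    (hN : 1 ≤ N) {c : ℝ} (h : LP (iterHomeo f' N) c) :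
    ∃ r > 0, ∀ ε > 0, ε ≤ r → ∀ δ > 0, δ ≤ r →
      ((∃ C : ℕ, ∀ n x y, P f ε δ n x ≤ C * P f ε δ n y) ↔
        ∃ C : ℕ, ∀ n x y, P (iterHomeo f' N) (c / 4) (c / 2) n x ≤
          C * P (iterHomeo f' N) (c / 4) (c / 2) n y) := by
  have hc := h.c_pos
  obtain ⟨r, hr, hr1⟩ := one_uc φ (show 0 < c / 4 by linarith)
  refine ⟨r, hr, fun ε hε0 hε δ hδ0 hδ => ?_⟩
  have hδ1 : ∀ a b : X, dist a b ≤ δ → dist (φ a) (φ b) ≤ c / 2 := fun a b hab =>
    (hr1 a b (hab.trans hδ)).trans (by linarith)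
  have hε1 : ∀ a b : X, dist a b ≤ ε → dist (φ a) (φ b) ≤ c / 4 := fun a b hab =>
    hr1 a b (hab.trans hε)
  obtain ⟨ε', hε'0, hA⟩ := cmpA hφ hN hδ0 hδ1 hε0
  obtain ⟨δ', hδ'0, hB⟩ := cmpB hφ hN hε1 hδ0
  -- we may take `ε'` small
  have hA' : ∀ (m : ℕ) (x : X), P (iterHomeo f' N) (min ε' (c / 4)) (c / 2) m (φ x) ≤
      P f ε δ (N * m) x := by
    intro m x
    refine le_trans ?_ (hA m x)
    obtain ⟨F, hF, h1⟩ := P_att (iterHomeo f' N) (min ε' (c / 4)) (show 0 < c / 2 by linarith) m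
      (φ x)
    rw [← h1]
    exact P_le (by linarith) ⟨fun y hy => (hF.1 y hy).mono (min_le_left _ _), hF.2⟩
  have hm0 : 0 < min ε' (c / 4) := lt_min hε'0 (by linarith)
  have hm1 : min ε' (c / 4) ≤ c / 4 := min_le_right _ _
  obtain ⟨K₁, -, j₁, h1⟩ := P_gen h (ε := c / 4) (ε' := min ε' (c / 4)) (δ := c / 2)
    (δ' := c / 2) (by linarith) hm0 (by linarith) (by linarith) (by linarith) (by linarith)
  obtain ⟨K₂, -, h2⟩ := P_chg h (ε := c / 4) (δ := δ') (δ' := c / 2) (by linarith) hδ'0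
    (by linarith) (by linarith)
  constructor
  · rintro ⟨C, hC⟩
    refine ⟨K₁ * (C * K₂), fun n x y => ?_⟩
    have h3 := h1 n x
    have h4 := hA' n (φ.symm ((iterHomeo f' N).symm^[j₁] x))
    rw [φ.apply_symm_apply] at h4
    have h5 := hC (N * n) (φ.symm ((iterHomeo f' N).symm^[j₁] x)) (φ.symm y)
    have h6 := hB (N * n) (φ.symm y)
    rw [φ.apply_symm_apply, Nat.mul_div_cancel_left n (by omega)] at h6
    have h7 := h2 n y
    calc _ ≤ K₁ * _ := h3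
      _ ≤ K₁ * _ := Nat.mul_le_mul_left _ h4
      _ ≤ K₁ * _ := Nat.mul_le_mul_left _ h5
      _ ≤ K₁ * (C * _) := Nat.mul_le_mul_left _ (Nat.mul_le_mul_left _ h6)
      _ ≤ K₁ * (C * _) := Nat.mul_le_mul_left _ (Nat.mul_le_mul_left _ h7)
      _ = _ := by ring
  · rintro ⟨C, hC⟩
    refine ⟨K₂ * (C * K₁), fun n x y => ?_⟩
    have h3 := hB n x
    have h4 := h2 (n / N) (φ x)
    have h5 := hC (n / N) (φ x) ((iterHomeo f' N)^[j₁] (φ y))
    have h6 := h1 (n / N) ((iterHomeo f' N)^[j₁] (φ y))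
    rw [iterL] at h6
    have h7 := hA' (n / N) y
    have h8 := P_mono_n (g := f) (ε := ε) hδ0 (Nat.mul_div_le n N) y
    calc _ ≤ _ := h3
      _ ≤ K₂ * _ := h4
      _ ≤ K₂ * _ := Nat.mul_le_mul_left _ h5
      _ ≤ K₂ * (C * _) := Nat.mul_le_mul_left _ (Nat.mul_le_mul_left _ h6)
      _ ≤ K₂ * (C * (K₁ * _)) := Nat.mul_le_mul_left _ (Nat.mul_le_mul_left _
        (Nat.mul_le_mul_left _ (h7.trans h8)))
      _ = _ := by ring

/-- The main abstract statement. -/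
theorem main_abs [ConnectedSpace X] {φ : X ≃ₜ Y} {f : X ≃ₜ X} {f' : Y ≃ₜ Y}
    (hφ : ∀ x, φ (f x) = f' (φ x)) {N : ℕ} (hN : 1 ≤ N) {c : ℝ} (h : LP (iterHomeo f' N) c) :
    ∃ r > 0, ∀ ε > 0, ε ≤ r → ∀ δ > 0, δ ≤ r →
      (TopTransitive f ↔ (∃ C : ℕ, ∀ n x y, P f ε δ n x ≤ C * P f ε δ n y) ∧
        ∃ C : ℕ, ∀ n x y, P f.symm ε δ n x ≤ C * P f.symm ε δ n y) := by
  have hY : ConnectedSpace Y := φ.surjective.connectedSpace φ.continuous
  have h' : LP (iterHomeo f'.symm N) c := by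
    rw [← ith_symm]
    exact h.symm
  obtain ⟨r₁, hr₁, h1⟩ := growth_iff hφ hN h
  obtain ⟨r₂, hr₂, h2⟩ := growth_iff (conj_symm hφ) hN h'
  refine ⟨min r₁ r₂, lt_min hr₁ hr₂, fun ε hε0 hε δ hδ0 hδ => ?_⟩
  rw [h1 ε hε0 (hε.trans (min_le_left _ _)) δ hδ0 (hδ.trans (min_le_left _ _)),
    h2 ε hε0 (hε.trans (min_le_right _ _)) δ hδ0 (hδ.trans (min_le_right _ _))]
  have ht : TopTransitive f ↔ TopTransitive f' := by
    constructor
    · intro ht U V hU hUn hV hVn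
      obtain ⟨n, _, ⟨x, hx, rfl⟩, hy⟩ := ht (φ ⁻¹' U) (φ ⁻¹' V) (hU.preimage φ.continuous)
        (hUn.preimage φ.surjective) (hV.preimage φ.continuous) (hVn.preimage φ.surjective)
      refine ⟨n, φ (f^[n] x), ⟨φ x, hx, (conj_iter hφ n x).symm⟩, hy⟩
    · intro ht U V hU hUn hV hVn
      obtain ⟨n, _, ⟨x, hx, rfl⟩, hy⟩ := ht (φ.symm ⁻¹' U) (φ.symm ⁻¹' V)
        (hU.preimage φ.symm.continuous) (hUn.preimage φ.symm.surjective)
        (hV.preimage φ.symm.continuous) (hVn.preimage φ.symm.surjective)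
      refine ⟨n, φ.symm (f'^[n] x), ⟨φ.symm x, hx, ?_⟩, hy⟩
      apply φ.injective
      rw [conj_iter hφ, φ.apply_symm_apply, φ.apply_symm_apply]
  rw [ht, trans_iff hN h]
  constructor
  · intro hS
    refine ⟨growth_of_min h (no_rep h hS), ?_⟩
    apply growth_of_min h'
    intro S hS'
    exact hS S hS'
  · rintro ⟨⟨C, hC⟩, C', hC'⟩
    exact unique_std h hC hC'

end two

end Pool.Agent.Y330.G
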