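import Pool.Agent.Y330.G.A8

set_option autoImplicit false
set_option linter.unusedSectionVars false

open Filter Topology Set Metric
open scoped Manifold ContDiff

namespace Pool.Agent.Y330.G

open Pool.Agent.H789R2.AN Pool.Agent.H721R2

variable {E : Type*} [NormedAddCommGroup E] [NormedSpace ℝ E] [FiniteDimensional ℝ E]

theorem exists_sys_pos {E₀ : Type*} [NormedAddCommGroup E₀] [NormedSpace ℝ E₀]
    [FiniteDimensional ℝ E₀]
    {M : Type*} [MetricSpace M] [CompactSpace M] [ChartedSpace E₀ M] [IsManifold 𝓘(ℝ, E₀) 1 M]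
    {F : Type*} [NormedAddCommGroup F] [NormedSpace ℝ F]
    {e : M → F} (hiso : ∀ x y, dist x y = ‖e x - e y‖)
    (he : ContMDiff 𝓘(ℝ, E₀) 𝓘(ℝ, F) 1 e) (hinj : ∀ x, Function.Injective (dm E₀ e x))
    (f : Diffeomorph 𝓘(ℝ, E₀) 𝓘(ℝ, E₀) M M 1)
    (Es Eu : ∀ x : M, Submodule ℝ (TangentSpace 𝓘(ℝ, E₀) x)) (h : IsAnosov f Es Eu) (N₀ : ℕ) :
    ∃ (n : ℕ) (S : HypSys M F), N₀ ≤ n ∧ S.g = iterHomeo f.toHomeomorph n ∧ S.e = e ∧
      (∀ x, S.Vs x = Submodule.map (dm E₀ e x).toLinearMap (Es x)) ∧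
      (∀ x, S.Vu x = Submodule.map (dm E₀ e x).toLinearMap (Eu x)) := by
  obtain ⟨C, a, b, Ls, Lu, hE⟩ := eanosov_of_isAnosov e he hinj f Es Eu h
  obtain ⟨K, hK, hang⟩ := hE.angle he hinj
  have t1 : Tendsto (fun n : ℕ => K * (C * a ^ n)) atTop (𝓝 0) := by
    have := ((tendsto_pow_atTop_nhds_zero_of_lt_one hE.a_pos.le hE.a_lt).const_mul C).const_mul K
    simpa using this
  have t2 : Tendsto (fun n : ℕ => K * (C * b ^ n)) atTop (𝓝 0) := by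
    have := ((tendsto_pow_atTop_nhds_zero_of_lt_one hE.b_pos.le hE.b_lt).const_mul C).const_mul K
    simpa using this
  obtain ⟨n, ⟨h1, h2⟩, h3⟩ := ((((tendsto_order.mp t1).2 (1 / 16) (by norm_num)).and
    ((tendsto_order.mp t2).2 (1 / 16) (by norm_num))).and (eventually_ge_atTop N₀)).exists
  obtain ⟨S, hS⟩ := exists_hypSys' hiso he hinj hE K hK hang n h1.le h2.le
  exact ⟨n, S, h3, hS⟩

universe u

/-- Every Anosov diffeomorphism has a power with local product structure for some metric. -/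
theorem exists_model {M : Type u} [TopologicalSpace M] [T2Space M] [CompactSpace M]
    [ChartedSpace E M] [IsManifold 𝓘(ℝ, E) ∞ M] (f : Diffeomorph 𝓘(ℝ, E) 𝓘(ℝ, E) M M 1)
    (Es Eu : ∀ x : M, Submodule ℝ (TangentSpace 𝓘(ℝ, E) x)) (hA : IsAnosov f Es Eu) :
    ∃ (Y : Type u) (_ : MetricSpace Y) (_ : CompactSpace Y) (φ : M ≃ₜ Y) (f' : Y ≃ₜ Y) (N : ℕ)
      (c : ℝ), (∀ x, φ (f x) = f' (φ x)) ∧ 1 ≤ N ∧ LP (iterHomeo f' N) c := by
  obtain ⟨m, e, he, hemb, hinj⟩ := exists_embedding_euclidean_of_compact (I := 𝓘(ℝ, E)) (M := M)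
  let iY : MetricSpace M := hemb.isEmbedding.comapMetricSpace e
  have hiso : ∀ x y : M, dist x y = ‖e x - e y‖ := fun x y => dist_eq_norm (e x) (e y)
  have he1 : ContMDiff 𝓘(ℝ, E) (𝓡 m) 1 e := he.of_le (by simp)
  obtain ⟨N, S, hN, hg, -⟩ := exists_sys_pos hiso he1 hinj f Es Eu hA 1
  obtain ⟨c, hc⟩ := exists_LP S
  rw [hg] at hc
  exact ⟨M, iY, inferInstance, Homeomorph.refl M, f.toHomeomorph, N, c, fun _ => rfl, hN, hc⟩

theorem man_growth {M : Type*} [MetricSpace M] [CompactSpace M] [ConnectedSpace M]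
    [ChartedSpace E M] [IsManifold 𝓘(ℝ, E) ∞ M] (f : Diffeomorph 𝓘(ℝ, E) 𝓘(ℝ, E) M M 1)
    (Es Eu : ∀ x : M, Submodule ℝ (TangentSpace 𝓘(ℝ, E) x)) (hA : IsAnosov f Es Eu) :
    ∃ r > 0, ∀ ε > 0, ε ≤ r → ∀ δ > 0, δ ≤ r →
      (TopTransitive f ↔
        (∃ C : ℕ, ∀ n x y, P f.toHomeomorph ε δ n x ≤ C * P f.toHomeomorph ε δ n y) ∧
        ∃ C : ℕ, ∀ n x y, P f.toHomeomorph.symm ε δ n x ≤ C * P f.toHomeomorph.symm ε δ n y) := by
  obtain ⟨Y, iY, cY, φ, f', N, c, hφ, hN, hc⟩ := exists_model f Es Eu hA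
  exact main_abs (f := f.toHomeomorph) hφ hN hc

end Pool.Agent.Y330.G
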