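import Mathlib

set_option autoImplicit false

open Set

namespace Pool.Agent.Y330.G

/-- The local unstable set of size `ε` of `x`: the points whose backward orbit stays `ε`-close to
the backward orbit of `x`. -/
def LocUnstable {M : Type*} [MetricSpace M] (f : M ≃ₜ M) (ε : ℝ) (x : M) : Set M :=
  {y | ∀ n : ℕ, dist (f.symm^[n] x) (f.symm^[n] y) ≤ ε}

/-- `(n, δ)`-separated finite sets: the orbits of any two different points are more than `δ` apart
at some time `k ≤ n`. -/
def Separated {M : Type*} [MetricSpace M] (f : M ≃ₜ M) (n : ℕ) (δ : ℝ) (F : Finset M) : Prop :=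
  ∀ y ∈ F, ∀ z ∈ F, y ≠ z → ∃ k ≤ n, δ < dist (f^[k] y) (f^[k] z)

/-- The growth of the unstable disk of `x` in time `n`: the maximal cardinality of an
`(n, δ)`-separated subset of the local unstable set of size `ε` of `x`. -/
noncomputable def growth {M : Type*} [MetricSpace M] (f : M ≃ₜ M) (ε δ : ℝ) (n : ℕ) (x : M) : ℕ∞ :=
  ⨆ F ∈ {F : Finset M | (F : Set M) ⊆ LocUnstable f ε x ∧ Separated f n δ F}, (F.card : ℕ∞)

end Pool.Agent.Y330.G
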