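import Pool.Agent.Y330.G.A9
import Pool.Agent.Y330.G.Def

set_option autoImplicit false

open Filter Topology Set Metric
open scoped Manifold ContDiff

namespace Pool.Agent.Y330.G

open Pool.Agent.H789R2.AN Pool.Agent.H721R2

theorem growth_eq {M : Type*} [MetricSpace M] [CompactSpace M] (f : M ≃ₜ M) (ε : ℝ) {δ : ℝ}
    (hδ : 0 < δ) (n : ℕ) (x : M) : growth f ε δ n x = (P f ε δ n x : ℕ∞) := by
  apply le_antisymm
  · refine iSup₂_le fun F hF => ?_
    exact_mod_cast P_le hδ (F := F) ⟨fun z hz => hF.1 hz, hF.2⟩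
  · obtain ⟨F, hF, h1⟩ := P_att f ε hδ n x
    rw [← h1]
    exact le_iSup₂_of_le F ⟨fun z hz => hF.1 z hz, hF.2⟩ le_rfl

end Pool.Agent.Y330.G
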