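import Pool.Agent.Y330.G.A7

set_option autoImplicit false

open Filter Topology Set Metric

namespace Pool.Agent.Y330.G

open Pool.Agent.H789R2.AN

variable {X : Type*} [MetricSpace X]

/-- Connecting orbits inside a minimal repeller, uniform in both points. -/
theorem conn_both [CompactSpace X] {g : X ≃ₜ X} {c : ℝ} (h : LP g c) {R : Set X}
    (hR : MinAtt g.symm R) {ε η : ℝ} (hε : 0 < ε) (hε1 : ε ≤ c) (hη : 0 < η) :
    ∃ N : ℕ, ∀ r ∈ R, ∀ v ∈ R, ∃ J ≤ N, ∃ z : X, SR g.symm ε r z ∧ SR g η v (g^[J] z) := by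
  have key : ∃ N : ℕ, ∀ r ∈ R ∩ R, ∀ v ∈ R, ∃ J ≤ N, ∃ z : X,
      SR g.symm ε r z ∧ SR g η v (g^[J] z) := by
    refine hR.1.closed.isCompact.induction_on (p := fun S => ∃ N : ℕ, ∀ r ∈ S ∩ R, ∀ v ∈ R,
      ∃ J ≤ N, ∃ z : X, SR g.symm ε r z ∧ SR g η v (g^[J] z)) ?_ ?_ ?_ ?_
    · exact ⟨0, fun v hv => absurd hv.1 (notMem_empty v)⟩
    · rintro S T hST ⟨N, h1⟩
      exact ⟨N, fun v hv => h1 v ⟨hST hv.1, hv.2⟩⟩
    · rintro S T ⟨N, h1⟩ ⟨N', h2⟩
      refine ⟨max N N', fun r hr v hv => ?_⟩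
      rcases hr with ⟨hr | hr, hrR⟩
      · obtain ⟨J, hJ, h3⟩ := h1 r ⟨hr, hrR⟩ v hv
        exact ⟨J, hJ.trans (le_max_left _ _), h3⟩
      · obtain ⟨J, hJ, h3⟩ := h2 r ⟨hr, hrR⟩ v hv
        exact ⟨J, hJ.trans (le_max_right _ _), h3⟩
    · intro r hr
      obtain ⟨N, hN⟩ := conn_unif h hR hr (half_pos hε) (half_pos hη)
      obtain ⟨δ, hδ, hh⟩ := hol h (show 0 < min (ε / 2) (η / 2) from
        lt_min (half_pos hε) (half_pos hη))
      refine ⟨ball r δ, mem_nhdsWithin_of_mem_nhds (ball_mem_nhds r hδ), N,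
        fun r' hr' v hv => ?_⟩
      obtain ⟨J, hJ, z, hz1, hz2⟩ := hN v hv
      obtain ⟨z', h1, h2⟩ := hh (ε / 2) (by linarith) r r' z
        (by rw [dist_comm]; exact hr'.1) hz1
      refine ⟨J, hJ, z', h2.mono ?_, fun k => ?_⟩
      · have := min_le_left (ε / 2) (η / 2)
        linarith
      · have h3 := h1 (k + J)
        rw [Function.iterate_add_apply, Function.iterate_add_apply] at h3
        have h4 := hz2 k
        have h5 := min_le_right (ε / 2) (η / 2)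
        have := dist_triangle (g^[k] v) (g^[k] (g^[J] z)) (g^[k] (g^[J] z'))
        linarith
  obtain ⟨N, hN⟩ := key
  exact ⟨N, fun r hr v hv => hN r ⟨hr, hr⟩ v hv⟩

/-- The same for minimal attractors. -/
theorem conn_att [CompactSpace X] {g : X ≃ₜ X} {c : ℝ} (h : LP g c) {A : Set X}
    (hA : MinAtt g A) {ε η : ℝ} (hε : 0 < ε) (hη : 0 < η) (hη1 : η ≤ c) :
    ∃ N : ℕ, ∀ r ∈ A, ∀ v ∈ A, ∃ J ≤ N, ∃ z : X, SR g.symm ε r z ∧ SR g η v (g^[J] z) := by
  obtain ⟨N, hN⟩ := conn_both h.symm (R := A) hA hη hη1 hε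
  refine ⟨N, fun r hr v hv => ?_⟩
  obtain ⟨J, hJ, z, h1, h2⟩ := hN v hv r hr
  refine ⟨J, hJ, g.symm^[J] z, h2, ?_⟩
  rw [iterR]
  exact h1

/-- Comparison of the growth at two points when the unstable set of one of them passes near the
other one. -/
theorem transport [CompactSpace X] {g : X ≃ₜ X} {c : ℝ} (h : LP g c) :
    ∃ η > 0, η ≤ c ∧ ∃ J₀ : ℕ, ∀ N : ℕ, ∃ C : ℕ, 1 ≤ C ∧ ∀ x y : X,
      (∃ J ≤ N, ∃ z : X, SR g.symm c (g^[J₀] y) z ∧ SR g η x (g^[J] z)) →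
        ∀ n, P g (c / 4) (c / 2) n x ≤ C * P g (c / 4) (c / 2) n y := by
  classical
  have hc := h.c_pos
  obtain ⟨δ, hδ, hh⟩ := hol h (show 0 < c / 16 by linarith)
  obtain ⟨J₀, hJ₀⟩ := pw (c := c) (show 0 < c / 8 by linarith)
  refine ⟨min (δ / 2) c, lt_min (half_pos hδ) hc, min_le_right _ _, J₀, fun N => ?_⟩
  obtain ⟨K₁, hK₁, h1⟩ := sep_short h (ε := c / 4) (δ := 3 * c / 8) (by linarith) (by linarith)
    (by linarith) (N + J₀)
  obtain ⟨K₂, hK₂, h2⟩ := P_chg h (ε := c / 4) (δ := 3 * c / 8) (δ' := c / 2) (by linarith)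
    (by linarith) (by linarith) (by linarith)
  refine ⟨K₁ * K₂, Nat.mul_pos hK₁ hK₂, ?_⟩
  rintro x y ⟨J, hJ, z, hz1, hz2⟩ n
  obtain ⟨F, hF, hFc⟩ := P_att g (c / 4) (show 0 < c / 2 by linarith) n x
  have hxz : dist x (g^[J] z) < δ := by
    have := (hz2 0).trans (min_le_left _ _)
    simp only [Function.iterate_zero, id] at this
    linarith
  have hch : ∀ p, ∃ p', p ∈ F → SR g (c / 16) p p' ∧ SR g.symm (c / 4 + c / 16) (g^[J] z) p' := by
    intro p
    by_cases hp : p ∈ F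
    · obtain ⟨p', h3⟩ := hh (c / 4) (by linarith) x (g^[J] z) p hxz (hF.1 p hp)
      exact ⟨p', fun _ => h3⟩
    · exact ⟨p, fun h => absurd h hp⟩
  choose φ hφ using hch
  have hsep : ∀ p ∈ F, ∀ p' ∈ F, p ≠ p' → ∃ k ≤ n, 3 * c / 8 < dist (g^[k] (φ p)) (g^[k] (φ p')) := by
    intro p hp p' hp' hne
    obtain ⟨k, hk, h3⟩ := hF.2 p hp p' hp' hne
    refine ⟨k, hk, ?_⟩
    have h4 := (hφ p hp).1 k
    have h5 := (hφ p' hp').1 k
    have := dist_triangle4_right (g^[k] p) (g^[k] p') (g^[k] (φ p)) (g^[k] (φ p'))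
    linarith
  have hinj : Set.InjOn φ F := by
    intro p hp p' hp' he
    by_contra hne
    obtain ⟨k, -, hk⟩ := hsep p hp p' hp' hne
    rw [he, dist_self] at hk
    linarith
  have hs1 : Sep g (3 * c / 8) n (F.image φ) := by
    intro a ha b hb hab
    obtain ⟨p, hp, rfl⟩ := Finset.mem_image.mp ha
    obtain ⟨p', hp', rfl⟩ := Finset.mem_image.mp hb
    exact hsep p hp p' hp' fun e => hab (by rw [e])
  have hs2 := sep_back hs1 (J + J₀)
  have hs3 : Sep g (3 * c / 8) (n + (N + J₀)) ((F.image φ).image (g.symm^[J + J₀])) :=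
    hs2.mono le_rfl (by omega)
  have hu : ∀ q ∈ (F.image φ).image (g.symm^[J + J₀]), SR g.symm (c / 4) y q := by
    intro q hq
    obtain ⟨q', hq', rfl⟩ := Finset.mem_image.mp hq
    obtain ⟨p, hp, rfl⟩ := Finset.mem_image.mp hq'
    intro i
    have h3 := h.cU _ _ hz1 (i + J₀)
    have h4 := h.cU _ _ ((hφ p hp).2.mono (show c / 4 + c / 16 ≤ c by linarith)) (i + (J + J₀))
    rw [bk' g (show J₀ ≤ i + J₀ by omega), Nat.add_sub_cancel] at h3
    have e : i + (J + J₀) - J = i + J₀ := by omega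
    rw [bk' g (show J ≤ i + (J + J₀) by omega), e,
      Function.iterate_add_apply g.symm i (J + J₀) (φ p)] at h4
    have h5 := (pw_anti hc (show J₀ ≤ i + J₀ by omega)).trans hJ₀
    have h6 := (pw_anti hc (show J₀ ≤ i + (J + J₀) by omega)).trans hJ₀
    have := dist_triangle (g.symm^[i] y) (g.symm^[i + J₀] z) (g.symm^[i] (g.symm^[J + J₀] (φ p)))
    linarith
  obtain ⟨F₁, h3, h4, h5⟩ := h1 n y _ hu hs3
  rw [Finset.card_image_of_injective _ (g.symm.injective.iterate _),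
    Finset.card_image_of_injOn hinj] at h5
  calc P g (c / 4) (c / 2) n x = F.card := hFc.symm
    _ ≤ K₁ * F₁.card := h5
    _ ≤ K₁ * P g (c / 4) (3 * c / 8) n y :=
      Nat.mul_le_mul_left _ (P_le (by linarith) ⟨fun q hq => hu q (h3 hq), h4⟩)
    _ ≤ K₁ * (K₂ * P g (c / 4) (c / 2) n y) := Nat.mul_le_mul_left _ (h2 n y)
    _ = _ := by ring

/-- Uniform growth on a minimal repeller. -/
theorem growth_rep [CompactSpace X] {g : X ≃ₜ X} {c : ℝ} (h : LP g c) {R : Set X}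
    (hR : MinAtt g.symm R) : ∃ C : ℕ, 1 ≤ C ∧ ∀ x ∈ R, ∀ y ∈ R, ∀ n,
      P g (c / 4) (c / 2) n x ≤ C * P g (c / 4) (c / 2) n y := by
  obtain ⟨η, hη, hηc, J₀, h1⟩ := transport h
  obtain ⟨N, hN⟩ := conn_both h hR h.c_pos le_rfl hη
  obtain ⟨C, hC, h2⟩ := h1 N
  refine ⟨C, hC, fun x hx y hy n => h2 x y (hN _ ?_ x hx) n⟩
  exact (inv_iter (fun x => by rw [← hR.1.inv (g x), g.symm_apply_apply]) J₀ y).mpr hy

/-- Uniform growth on a minimal attractor. -/
theorem growth_att [CompactSpace X] {g : X ≃ₜ X} {c : ℝ} (h : LP g c) {A : Set X}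
    (hA : MinAtt g A) : ∃ C : ℕ, 1 ≤ C ∧ ∀ x ∈ A, ∀ y ∈ A, ∀ n,
      P g (c / 4) (c / 2) n x ≤ C * P g (c / 4) (c / 2) n y := by
  obtain ⟨η, hη, hηc, J₀, h1⟩ := transport h
  obtain ⟨N, hN⟩ := conn_att h hA h.c_pos hη hηc
  obtain ⟨C, hC, h2⟩ := h1 N
  exact ⟨C, hC, fun x hx y hy n => h2 x y (hN _ ((inv_iter hA.1.inv J₀ y).mpr hy) x hx) n⟩

/-- Submultiplicativity at a point. -/
theorem P_submult [CompactSpace X] {g : X ≃ₜ X} {c : ℝ} (h : LP g c) {ε δ : ℝ}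
    (hε : ε ≤ c) (hδ0 : 0 < δ) {n m : ℕ} {x : X} {B : ℕ}
    (hB : ∀ z, WS g.symm (g^[n] x) z → P g (max (2 * ε) (δ / 2)) δ m z ≤ B) :
    P g ε δ (n + m) x ≤ B * P g ε (δ / 2) n x := by
  classical
  obtain ⟨F, hF, h3⟩ := P_att g ε hδ0 (n + m) x
  rw [← h3]
  obtain ⟨F₁, hF₁, hs₁, hmax⟩ := exists_max_sep (g := g) (half_pos hδ0).le n F
  have hch : ∀ y, ∃ z, y ∈ F → z ∈ F₁ ∧ ∀ k ≤ n, dist (g^[k] y) (g^[k] z) ≤ δ / 2 := by
    intro y
    by_cases hy : y ∈ F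
    · obtain ⟨z, h1, h2⟩ := hmax y hy
      exact ⟨z, fun _ => ⟨h1, h2⟩⟩
    · exact ⟨y, fun h => absurd h hy⟩
  choose φ hφ using hch
  have h4 : F.card ≤ B * F₁.card := by
    refine Finset.card_le_mul_card_image_of_maps_to (f := φ) (fun y hy => (hφ y hy).1) _ ?_
    intro z hz
    have hinj : Function.Injective (g^[n]) := g.injective.iterate n
    rw [← Finset.card_image_of_injective _ hinj]
    have hz' : WS g.symm (g^[n] x) (g^[n] z) := by
      rw [← WS.iter n, iterL, iterL]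
      exact WS.of_SR (h.cU _ _ ((hF.1 z (hF₁ hz)).mono hε))
    refine (P_le hδ0 (x := g^[n] z) ?_).trans (hB _ hz')
    constructor
    · intro a ha
      obtain ⟨y, hy, rfl⟩ := Finset.mem_image.mp ha
      rw [Finset.mem_filter] at hy
      refine sr_of g (fun i hi => ?_) ?_
      · have h1 := (hφ y hy.1).2 i hi
        rw [hy.2] at h1
        rw [dist_comm]
        exact h1.trans (le_max_right _ _)
      · exact (sr_tr (hF.1 z (hF₁ hz)).symm' (hF.1 y hy.1)).mono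
          (by rw [← two_mul]; exact le_max_left _ _)
    · intro a ha b hb hab
      obtain ⟨y, hy, rfl⟩ := Finset.mem_image.mp ha
      obtain ⟨y', hy', rfl⟩ := Finset.mem_image.mp hb
      rw [Finset.mem_filter] at hy hy'
      have hne : y ≠ y' := fun e => hab (by rw [e])
      obtain ⟨k, hk, h5⟩ := hF.2 y hy.1 y' hy'.1 hne
      have hkn : n < k := by
        by_contra hcon
        push Not at hcon
        have h1 := (hφ y hy.1).2 k hcon
        have h2 := (hφ y' hy'.1).2 k hcon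
        rw [hy.2] at h1
        rw [hy'.2] at h2
        have := dist_triangle_right (g^[k] y) (g^[k] y') (g^[k] z)
        linarith
      refine ⟨k - n, by omega, ?_⟩
      rw [← Function.iterate_add_apply, ← Function.iterate_add_apply]
      have e : k - n + n = k := by omega
      rwa [e]
  exact h4.trans (Nat.mul_le_mul_left _ (P_le (half_pos hδ0) ⟨fun y hy => hF.1 y (hF₁ hy), hs₁⟩))

/-- Submultiplicativity of the growth at a point of a minimal attractor. -/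
theorem att_submult [CompactSpace X] {g : X ≃ₜ X} {c : ℝ} (h : LP g c) {A : Set X}
    (hA : MinAtt g A) {a : X} (ha : a ∈ A) : ∃ K : ℕ, 1 ≤ K ∧ ∀ n m : ℕ,
      P g (c / 4) (c / 2) (n + m) a ≤
        K * (P g (c / 4) (c / 2) n a * P g (c / 4) (c / 2) m a) := by
  have hc := h.c_pos
  obtain ⟨C, hC, h1⟩ := growth_att h hA
  obtain ⟨K₁, hK₁, j, h2⟩ := P_gen h (ε := max (2 * (c / 4)) (c / 2 / 2)) (ε' := c / 4)
    (δ := c / 2) (δ' := c / 2)
    (by rcases max_choice (2 * (c / 4)) (c / 2 / 2) with e | e <;> rw [e] <;> linarith)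
    (by linarith) (by linarith) (by linarith) (by linarith) (by linarith)
  obtain ⟨K₂, hK₂, h3⟩ := P_chg h (ε := c / 4) (δ := c / 2 / 2) (δ' := c / 2) (by linarith)
    (by linarith) (by linarith) (by linarith)
  refine ⟨K₁ * C * K₂, Nat.mul_pos (Nat.mul_pos hK₁ hC) hK₂, fun n m => ?_⟩
  have h4 : P g (c / 4) (c / 2) (n + m) a ≤
      (K₁ * (C * P g (c / 4) (c / 2) m a)) * P g (c / 4) (c / 2 / 2) n a := by
    refine P_submult h (by linarith) (by linarith) fun z hz => ?_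
    have hzA : z ∈ A := hA.1.sat _ ((inv_iter hA.1.inv n a).mpr ha) z hz
    exact (h2 m z).trans (Nat.mul_le_mul_left _
      (h1 _ ((inv_iter (inv_symm hA.1.inv) j z).mpr hzA) a ha m))
  calc _ ≤ _ := h4
    _ ≤ (K₁ * (C * P g (c / 4) (c / 2) m a)) * (K₂ * P g (c / 4) (c / 2) n a) :=
      Nat.mul_le_mul_left _ (h3 n a)
    _ = _ := by ring

end Pool.Agent.Y330.G
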