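import Pool.Agent.Y330.G.C1
import Pool.Agent.Y330.G.A5

set_option autoImplicit false

open Filter Topology Set Metric

namespace Pool.Agent.Y330.G

open Pool.Agent.H789R2.AN

variable {X : Type*} [MetricSpace X]

theorem fwR {g : X ≃ₜ X} {R : Set X} (hR : IsAtt g.symm R) (k : ℕ) {y : X} (hy : y ∈ R) :
    g^[k] y ∈ R :=
  (inv_iter (fun x => by rw [← hR.inv (g x), g.symm_apply_apply]) k y).mpr hy

/-- From every point of a minimal repeller one can reach the neighbourhood of a given point of its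
unstable set. -/
theorem exit_to [CompactSpace X] {g : X ≃ₜ X} {c : ℝ} (h : LP g c) {R : Set X}
    (hR : MinAtt g.symm R) {r₀ w₀ : X} (hr₀ : r₀ ∈ R) (hw : WS g.symm r₀ w₀) {ε η : ℝ}
    (hε : 0 < ε) (hεc : ε ≤ c) (hη : 0 < η) :
    ∃ N : ℕ, ∀ v ∈ R, ∃ z : X, ∃ J ≤ N, SR g.symm ε v z ∧ SR g η w₀ (g^[J] z) := by
  have hm0 : 0 < min η (ε / 4) := lt_min hη (by linarith)
  obtain ⟨δ, hδ, hh⟩ := hol h hm0
  obtain ⟨m₀, hm₀⟩ := hw.eventually_lt (show 0 < ε / 4 by linarith)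
  have hr₁ : g.symm^[m₀] r₀ ∈ R := (inv_iter hR.1.inv m₀ r₀).mpr hr₀
  have hrw : SR g.symm (ε / 4) (g.symm^[m₀] r₀) (g.symm^[m₀] w₀) := by
    intro i
    rw [← Function.iterate_add_apply, ← Function.iterate_add_apply]
    exact (hm₀ _ (by omega)).le
  obtain ⟨N, hN⟩ := conn_both h hR (ε := ε / 4) (η := δ / 2) (by linarith) (by linarith)
    (by linarith)
  refine ⟨N + m₀, fun v hv => ?_⟩
  obtain ⟨J, hJ, z₁, hz1, hz2⟩ := hN v hv _ hr₁
  have hd : dist (g.symm^[m₀] r₀) (g^[J] z₁) < δ := by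
    have := hz2 0
    simp only [Function.iterate_zero, id] at this
    linarith
  obtain ⟨w', h1, h2⟩ := hh (ε / 4) (by linarith) _ _ _ hd hrw
  refine ⟨g.symm^[J] w', m₀ + J, by omega, fun i => ?_, fun k => ?_⟩
  · have h3 := hz1 i
    have h4 := h2 (i + J)
    rw [bk' g (show J ≤ i + J by omega), Nat.add_sub_cancel, Function.iterate_add_apply] at h4
    have h5 := min_le_right η (ε / 4)
    have := dist_triangle (g.symm^[i] v) (g.symm^[i] z₁) (g.symm^[i] (g.symm^[J] w'))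
    linarith
  · have h3 := h1 (k + m₀)
    rw [Function.iterate_add_apply, iterR] at h3
    rw [← Function.iterate_add_apply, show k + (m₀ + J) = (k + m₀) + J by omega,
      Function.iterate_add_apply g (k + m₀) J, iterR]
    exact h3.trans (min_le_left _ _)

/-- Reaching a minimal attractor from points whose orbits pass near a given point of its basin. -/
theorem reach_att [CompactSpace X] {g : X ≃ₜ X} {c : ℝ} (h : LP g c) {A : Set X}
    (hA : MinAtt g A) {a₁ w₀ a : X} (ha₁ : a₁ ∈ A) (hw : WS g w₀ a₁) (ha : a ∈ A)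
    {η : ℝ} (hη : 0 < η) (hηc : η ≤ c) (J₀ N₂ : ℕ) :
    ∃ N : ℕ, ∀ z : X, (∃ J ≤ N₂, SR g c w₀ (g^[J] z)) →
      ∃ J ≤ N, ∃ z' : X, SR g.symm c (g^[J₀] z) z' ∧ SR g η a (g^[J] z') := by
  have hc := h.c_pos
  obtain ⟨δ, hδ, hh⟩ := hol h (half_pos hη)
  obtain ⟨NA, hNA⟩ := conn_att h hA (ε := c / 2) (η := η / 2) (by linarith) (by linarith)
    (by linarith)
  obtain ⟨M₁, hM₁⟩ := hw.eventually_lt (show 0 < δ / 4 by linarith)
  obtain ⟨M₂, hM₂⟩ := pw (c := c) (show 0 < δ / 4 by linarith)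
  set M := M₁ + M₂ + J₀ with hM
  refine ⟨M + N₂ + NA, ?_⟩
  rintro z ⟨J, hJ, hz⟩
  have hd : dist (g^[M] a₁) (g^[M + J] z) < δ := by
    have h1 := hM₁ M (by omega)
    have h2 := (h.cS _ _ hz M).trans ((pw_anti hc (show M₂ ≤ M by omega)).trans hM₂)
    rw [← Function.iterate_add_apply] at h2
    have := dist_triangle_left (g^[M] a₁) (g^[M + J] z) (g^[M] w₀)
    linarith
  obtain ⟨J', hJ', z₂, hz1, hz2⟩ := hNA _ ((inv_iter hA.1.inv M a₁).mpr ha₁) a ha
  obtain ⟨z₃, h3, h4⟩ := hh (c / 2) (by linarith) _ _ _ hd hz1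
  refine ⟨J' + (M + J - J₀), by omega, g.symm^[M + J - J₀] z₃, fun i => ?_, fun k => ?_⟩
  · have h5 := h4 (i + (M + J - J₀))
    rw [Function.iterate_add_apply g.symm i (M + J - J₀) (g^[M + J] z),
      Function.iterate_add_apply g.symm i (M + J - J₀) z₃,
      bk g (show M + J - J₀ ≤ M + J by omega)] at h5
    have e : M + J - (M + J - J₀) = J₀ := by omega
    rw [e] at h5
    linarith
  · have h5 := h3 (k + J')
    rw [Function.iterate_add_apply] at h5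
    have h6 := hz2 k
    rw [Function.iterate_add_apply g J', iterR]
    rw [Function.iterate_add_apply g k J' z₃] at h5
    have := dist_triangle (g^[k] a) (g^[k] (g^[J'] z₂)) (g^[k] (g^[J'] z₃))
    linarith

/-- Orbits that follow a minimal repeller and then a minimal attractor. -/
theorem conn_ineq [CompactSpace X] {g : X ≃ₜ X} {c : ℝ} (h : LP g c) {R A₀ : Set X}
    (hR : MinAtt g.symm R) (hA : MinAtt g A₀) {r₀ a₁ w₀ : X} (hr₀ : r₀ ∈ R) (ha₁ : a₁ ∈ A₀)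
    (hw1 : WS g.symm r₀ w₀) (hw2 : WS g w₀ a₁) (hw3 : w₀ ∉ R) {r a : X} (hr : r ∈ R)
    (ha : a ∈ A₀) :
    ∃ K : ℕ, 1 ≤ K ∧ ∃ j₂ : ℕ, ∀ j₀ ≥ j₂, ∀ m n, j₀ * m ≤ n →
      ∑ i ∈ Finset.range m, P g.symm (c / 4) (c / 2) (j₀ * (i + 1)) r *
        P g (c / 4) (c / 2) (n - j₀ * (i + 1)) a ≤ K * P g (c / 4) (c / 2) n r := by
  classical
  have hc := h.c_pos
  -- the distance of `w₀` to the repeller
  obtain ⟨η₀, hη₀, hball⟩ := Metric.isOpen_iff.mp hR.1.closed.isOpen_compl w₀ hw3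
  have hw₀R : ∀ r ∈ R, η₀ ≤ dist w₀ r := by
    intro r hr
    by_contra hcon
    push Not at hcon
    exact hball (by rw [mem_ball, dist_comm]; exact hcon) hr
  obtain ⟨N₂, hexit⟩ := exit_to h hR hr₀ hw1 (ε := c / 16) (η := min c (η₀ / 2)) (by linarith)
    (by linarith) (lt_min hc (half_pos hη₀))
  obtain ⟨η₂, hη₂, huc⟩ := uc g g.continuous N₂ (half_pos hη₀)
  have hexd : ∀ z, (∃ J ≤ N₂, SR g (min c (η₀ / 2)) w₀ (g^[J] z)) → ∀ r ∈ R, η₂ ≤ dist z r := by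
    rintro z ⟨J, hJ, hz⟩ r hr
    by_contra hcon
    push Not at hcon
    have h1 := huc J hJ _ _ hcon
    have h2 := (hz 0).trans (min_le_right _ _)
    simp only [Function.iterate_zero, id] at h2
    have h3 := hw₀R _ (fwR hR.1 J hr)
    have := dist_triangle w₀ (g^[J] z) (g^[J] r)
    linarith
  obtain ⟨N, hdual⟩ := dual h hR hr (ε := c / 8) (η := c / 16) (δ := c / 2) (ε₀ := c / 4)
    (by linarith) (by linarith) (by linarith) (by linarith) (by linarith)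
  obtain ⟨j₁, hj₁⟩ := pw (c := c) (show 0 < η₂ / 4 by linarith)
  set ε₃ := min (c / 16) (η₂ / 4) with hε₃
  have hε₃0 : 0 < ε₃ := lt_min (by linarith) (by linarith)
  have hε₃1 : ε₃ ≤ c / 16 := min_le_left _ _
  have hε₃2 : ε₃ ≤ η₂ / 4 := min_le_right _ _
  set δ₄ := min (c / 8) (η₂ / 4) with hδ₄
  have hδ₄0 : 0 < δ₄ := lt_min (by linarith) (by linarith)
  have hδ₄1 : δ₄ ≤ c / 8 := min_le_left _ _
  have hδ₄2 : δ₄ ≤ η₂ / 4 := min_le_right _ _
  obtain ⟨K₁, hK₁, h1⟩ := P_shift h.symm (ε := c / 4) (δ := c / 2) (by linarith) (by linarith)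
    (by linarith) N
  obtain ⟨K₂, hK₂, jj, h2⟩ := P_gen h (ε := c / 4) (ε' := ε₃) (δ := c / 2) (δ' := c / 2)
    (by linarith) hε₃0 (by linarith) (by linarith) (by linarith) (by linarith)
  obtain ⟨K₃, hK₃, h3⟩ := P_chg h (ε := c / 4) (δ := δ₄) (δ' := c / 2) (by linarith) hδ₄0
    (by linarith) (by linarith)
  obtain ⟨η₅, hη₅, hη₅c, J₀, htr⟩ := transport h
  obtain ⟨N₃, hreach⟩ := reach_att h hA ha₁ hw2 ha hη₅ hη₅c (J₀ + jj) N₂
  obtain ⟨K₄, hK₄, h4⟩ := htr N₃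
  -- lower bound for the growth at exit points
  have hlow : ∀ z, (∃ J ≤ N₂, SR g (min c (η₀ / 2)) w₀ (g^[J] z)) → ∀ k,
      P g (c / 4) (c / 2) k a ≤ K₄ * K₂ * P g ε₃ (c / 2) k z := by
    rintro z ⟨J, hJ, hz⟩ k
    obtain ⟨J', hJ', z', h5, h6⟩ := hreach z ⟨J, hJ, hz.mono (min_le_left _ _)⟩
    have h7 := h4 a (g^[jj] z) ⟨J', hJ', z', by rwa [← Function.iterate_add_apply], h6⟩ k
    have h8 := h2 k (g^[jj] z)
    rw [iterL] at h8
    calc _ ≤ K₄ * _ := h7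
      _ ≤ K₄ * (K₂ * _) := Nat.mul_le_mul_left _ h8
      _ = _ := by ring
  refine ⟨K₁ * (N + 1) * (K₄ * K₂) * K₃, ?_, max N j₁ + 1, ?_⟩
  · exact Nat.mul_pos (Nat.mul_pos (Nat.mul_pos hK₁ (by omega)) (Nat.mul_pos hK₄ hK₂)) hK₃
  intro j₀ hj₀ m n hmn
  have hNj : N ≤ j₀ := by have := le_max_left N j₁; omega
  have hj₁j : j₁ ≤ j₀ := by have := le_max_right N j₁; omega
  -- the pieces
  have hF : ∀ i, ∃ F : Finset X, (∀ y ∈ F, SR g.symm (c / 8) r y ∧ y ∈ R) ∧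
      Sep g (3 * c / 8) (j₀ * (i + 1)) F ∧
      P g.symm (c / 4) (c / 2) (j₀ * (i + 1)) r ≤ K₁ * (N + 1) * F.card := by
    intro i
    have hk : N ≤ j₀ * (i + 1) := by nlinarith
    obtain ⟨F₀, hF₀, hF₀c⟩ := P_att g.symm (c / 4) (show 0 < c / 2 by linarith)
      (j₀ * (i + 1) - N) r
    obtain ⟨F', hF1, hF2, hF3⟩ := hdual _ r hr F₀ hF₀
    have e : j₀ * (i + 1) - N + N = j₀ * (i + 1) := by omega
    rw [e] at hF2
    have h4 := h1 (j₀ * (i + 1) - N) r
    rw [e] at h4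
    refine ⟨F', hF1, hF2.mono (by linarith) le_rfl, ?_⟩
    calc _ ≤ K₁ * P g.symm (c / 4) (c / 2) (j₀ * (i + 1) - N) r := h4
      _ = K₁ * F₀.card := by rw [hF₀c]
      _ ≤ K₁ * ((N + 1) * F'.card) := Nat.mul_le_mul_left _ hF3
      _ = _ := by ring
  choose F hF1 hF2 hF3 using hF
  have hw : ∀ v, ∃ w, v ∈ R → SR g.symm (c / 16) v w ∧
      ∃ J ≤ N₂, SR g (min c (η₀ / 2)) w₀ (g^[J] w) := by
    intro v
    by_cases hv : v ∈ R
    · obtain ⟨w, J, hJ, hw5, hw6⟩ := hexit v hv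
      exact ⟨w, fun _ => ⟨hw5, J, hJ, hw6⟩⟩
    · exact ⟨v, fun h => absurd h hv⟩
  choose w hw using hw
  have hG : ∀ (k : ℕ) (v : X), ∃ G : Finset X, Val g ε₃ (c / 2) k (w v) G ∧
      (v ∈ R → P g (c / 4) (c / 2) k a ≤ K₄ * K₂ * G.card) := by
    intro k v
    obtain ⟨G, hG1, hG2⟩ := P_att g ε₃ (show 0 < c / 2 by linarith) k (w v)
    refine ⟨G, hG1, fun hv => ?_⟩
    rw [hG2]
    exact hlow _ (hw v hv).2 k
  choose G hG1 hG2 using hG
  have hgR : ∀ k y, y ∈ R → g^[k] y ∈ R := fun k y hy => fwR hR.1 k hy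
  set T : ℕ → X → Finset X := fun i y =>
    (G (n - j₀ * (i + 1)) (g^[j₀ * (i + 1)] y)).image (g.symm^[j₀ * (i + 1)]) with hT
  have hkn : ∀ i < m, j₀ * (i + 1) ≤ n := fun i hi => by
    have : j₀ * (i + 1) ≤ j₀ * m := Nat.mul_le_mul_left _ hi
    omega
  have hTG : ∀ i y z, z ∈ T i y → g^[j₀ * (i + 1)] z ∈ G (n - j₀ * (i + 1)) (g^[j₀ * (i + 1)] y) := by
    intro i y z hz
    obtain ⟨u, hu, rfl⟩ := Finset.mem_image.mp hz
    rwa [iterR]
  have hp1 : ∀ i y z, y ∈ R → z ∈ T i y →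
      SR g.symm (c / 8) (g^[j₀ * (i + 1)] y) (g^[j₀ * (i + 1)] z) := by
    intro i y z hy hz
    have h4 := (hG1 _ _).1 _ (hTG i y z hz)
    have h5 := (hw _ (hgR (j₀ * (i + 1)) y hy)).1
    exact (sr_tr h5 h4).mono (by linarith)
  have hp2 : ∀ i y z, y ∈ R → z ∈ T i y → ∀ r ∈ R, 3 * η₂ / 4 ≤ dist (g^[j₀ * (i + 1)] z) r := by
    intro i y z hy hz r hr
    have h4 := (hG1 _ _).1 _ (hTG i y z hz) 0
    simp only [Function.iterate_zero, id] at h4
    have h5 := hexd _ (hw _ (hgR (j₀ * (i + 1)) y hy)).2 r hr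
    have := dist_triangle (w (g^[j₀ * (i + 1)] y)) (g^[j₀ * (i + 1)] z) r
    linarith
  have hp3 : ∀ i y z, y ∈ R → z ∈ T i y → ∀ k ≤ j₀ * (i + 1), dist (g^[k] y) (g^[k] z) ≤ c / 8 := by
    intro i y z hy hz k hk
    have h4 := hp1 i y z hy hz (j₀ * (i + 1) - k)
    rw [bk g (by omega), bk g (by omega)] at h4
    have e : j₀ * (i + 1) - (j₀ * (i + 1) - k) = k := by omega
    rwa [e] at h4
  have hcross : ∀ i < m, ∀ i' < m, i < i' → ∀ y ∈ F i, ∀ y' ∈ F i', ∀ z ∈ T i y, ∀ z' ∈ T i' y',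
      ∃ k ≤ n, δ₄ < dist (g^[k] z) (g^[k] z') := by
    intro i hi i' hi' hii y hy y' hy' z hz z' hz'
    refine ⟨j₀ * (i + 1), hkn i hi, ?_⟩
    have h4 := hp2 i y z (hF1 i y hy).2 hz _ (hgR (j₀ * (i + 1)) y' (hF1 i' y' hy').2)
    have h5 := h.cU _ _ ((hp1 i' y' z' (hF1 i' y' hy').2 hz').mono (by linarith))
      (j₀ * (i' + 1) - j₀ * (i + 1))
    have h6 : j₀ * (i + 1) + j₀ ≤ j₀ * (i' + 1) := by nlinarith
    rw [bk g (by omega), bk g (by omega)] at h5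
    have e : j₀ * (i' + 1) - (j₀ * (i' + 1) - j₀ * (i + 1)) = j₀ * (i + 1) := by omega
    rw [e] at h5
    have h7 := h5.trans ((pw_anti hc (show j₁ ≤ _ by omega)).trans hj₁)
    have := dist_triangle_right (g^[j₀ * (i + 1)] z) (g^[j₀ * (i + 1)] y') (g^[j₀ * (i + 1)] z')
    linarith
  have hsame : ∀ i < m, ∀ y ∈ F i, ∀ y' ∈ F i, y ≠ y' → ∀ z ∈ T i y, ∀ z' ∈ T i y',
      ∃ k ≤ n, δ₄ < dist (g^[k] z) (g^[k] z') := by
    intro i hi y hy y' hy' hne z hz z' hz'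
    obtain ⟨k, hk, h4⟩ := hF2 i y hy y' hy' hne
    refine ⟨k, hk.trans (hkn i hi), ?_⟩
    have h5 := hp3 i y z (hF1 i y hy).2 hz k hk
    have h6 := hp3 i y' z' (hF1 i y' hy').2 hz' k hk
    have := dist_triangle4_right (g^[k] y) (g^[k] y') (g^[k] z) (g^[k] z')
    linarith
  have hin : ∀ i < m, ∀ y ∈ F i, ∀ z ∈ T i y, ∀ z' ∈ T i y, z ≠ z' →
      ∃ k ≤ n, δ₄ < dist (g^[k] z) (g^[k] z') := by
    intro i hi y hy z hz z' hz' hne
    have hinj : Function.Injective (g^[j₀ * (i + 1)]) := g.injective.iterate _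
    obtain ⟨k, hk, h4⟩ := (hG1 _ _).2 _ (hTG i y z hz) _ (hTG i y z' hz') (hinj.ne hne)
    have := hkn i hi
    refine ⟨k + j₀ * (i + 1), by omega, ?_⟩
    rw [Function.iterate_add_apply, Function.iterate_add_apply]
    linarith
  set E : Finset X := (Finset.range m).biUnion fun i => (F i).biUnion (T i) with hE
  have hval : Val g (c / 4) δ₄ n r E := by
    constructor
    · intro z hz
      simp only [hE, Finset.mem_biUnion, Finset.mem_range] at hz
      obtain ⟨i, hi, y, hy, hz⟩ := hz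
      have h4 := (hF1 i y hy).1
      have h5 : SR g.symm (c / 8) y z := by
        intro k
        have := hp1 i y z (hF1 i y hy).2 hz (k + j₀ * (i + 1))
        rw [Function.iterate_add_apply, Function.iterate_add_apply, iterL, iterL] at this
        exact this
      exact (sr_tr h4 h5).mono (by linarith)
    · intro z hz z' hz' hne
      simp only [hE, Finset.mem_biUnion, Finset.mem_range] at hz hz'
      obtain ⟨i, hi, y, hy, hz⟩ := hz
      obtain ⟨i', hi', y', hy', hz'⟩ := hz'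
      rcases lt_trichotomy i i' with h4 | h4 | h4
      · exact hcross i hi i' hi' h4 y hy y' hy' z hz z' hz'
      · subst h4
        by_cases hyy : y = y'
        · subst hyy
          exact hin i hi y hy z hz z' hz' hne
        · exact hsame i hi y hy y' hy' hyy z hz z' hz'
      · obtain ⟨k, hk, h5⟩ := hcross i' hi' i hi h4 y' hy' y hy z' hz' z hz
        exact ⟨k, hk, by rwa [dist_comm]⟩
  have hself : ∀ z : X, ¬ ∃ k ≤ n, δ₄ < dist (g^[k] z) (g^[k] z) := by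
    rintro z ⟨k, -, hk⟩
    rw [dist_self] at hk
    linarith
  have hEcard : E.card = ∑ i ∈ Finset.range m, ∑ y ∈ F i, (T i y).card := by
    rw [hE, Finset.card_biUnion]
    · refine Finset.sum_congr rfl fun i hi => ?_
      rw [Finset.card_biUnion]
      intro y hy y' hy' hne
      rw [Function.onFun, Finset.disjoint_left]
      intro z hz hz'
      exact hself z (hsame i (Finset.mem_range.mp hi) y hy y' hy' hne z hz z hz')
    · intro i hi i' hi' hne
      rw [Function.onFun, Finset.disjoint_left]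
      intro z hz hz'
      obtain ⟨y, hy, hz⟩ := Finset.mem_biUnion.mp hz
      obtain ⟨y', hy', hz'⟩ := Finset.mem_biUnion.mp hz'
      rw [Finset.mem_coe, Finset.mem_range] at hi hi'
      rcases lt_or_gt_of_ne hne with h4 | h4
      · exact hself z (hcross i hi i' hi' h4 y hy y' hy' z hz z hz')
      · exact hself z (hcross i' hi' i hi h4 y' hy' y hy z hz' z hz)
  have hTc : ∀ i, ∀ y ∈ F i, P g (c / 4) (c / 2) (n - j₀ * (i + 1)) a ≤
      K₄ * K₂ * (T i y).card := by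
    intro i y hy
    rw [hT]
    simp only
    rw [Finset.card_image_of_injective _ (g.symm.injective.iterate _)]
    exact hG2 _ _ (hgR _ _ (hF1 i y hy).2)
  calc ∑ i ∈ Finset.range m, P g.symm (c / 4) (c / 2) (j₀ * (i + 1)) r *
        P g (c / 4) (c / 2) (n - j₀ * (i + 1)) a
      ≤ ∑ i ∈ Finset.range m, K₁ * (N + 1) * (K₄ * K₂) * ∑ y ∈ F i, (T i y).card := by
        refine Finset.sum_le_sum fun i _ => ?_
        calc _ ≤ (K₁ * (N + 1) * (F i).card) * P g (c / 4) (c / 2) (n - j₀ * (i + 1)) a :=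
              Nat.mul_le_mul_right _ (hF3 i)
          _ = K₁ * (N + 1) * ∑ y ∈ F i, P g (c / 4) (c / 2) (n - j₀ * (i + 1)) a := by
              rw [Finset.sum_const, smul_eq_mul]; ring
          _ ≤ K₁ * (N + 1) * ∑ y ∈ F i, K₄ * K₂ * (T i y).card :=
              Nat.mul_le_mul_left _ (Finset.sum_le_sum fun y hy => hTc i y hy)
          _ = _ := by rw [← Finset.mul_sum]; ring
    _ = K₁ * (N + 1) * (K₄ * K₂) * E.card := by rw [← Finset.mul_sum, hEcard]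
    _ ≤ K₁ * (N + 1) * (K₄ * K₂) * P g (c / 4) δ₄ n r := Nat.mul_le_mul_left _ (P_le hδ₄0 hval)
    _ ≤ K₁ * (N + 1) * (K₄ * K₂) * (K₃ * P g (c / 4) (c / 2) n r) :=
        Nat.mul_le_mul_left _ (h3 n r)
    _ = _ := by ring

end Pool.Agent.Y330.G
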