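import Pool.Agent.Y330.G.C2
import Pool.Agent.Y330.G.A6

set_option autoImplicit false

open Filter Topology Set Metric

namespace Pool.Agent.Y330.G

open Pool.Agent.H789R2.AN

variable {X : Type*} [MetricSpace X]

/-- The closure of the stable set of the `α`-limit set of `v` is a repeller all points of which
are reached from `v` backwards. -/
theorem conn_gen [CompactSpace X] {g : X ≃ₜ X} {c : ℝ} (h : LP g c) (v : X) :
    ∃ T : Set X, IsAtt g.symm T ∧ ∀ r ∈ T, ∀ ε > 0, ∀ η > 0,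
      ∃ (J : ℕ) (z : X), SR g.symm ε r z ∧ SR g η v (g^[J] z) := by
  set ω : Set X := {y | MapClusterPt y atTop (fun n : ℕ => g.symm^[n] v)} with hω
  have hωchar : ∀ y, y ∈ ω ↔ ∀ W ∈ 𝓝 y, ∀ N : ℕ, ∃ n ≥ N, g.symm^[n] v ∈ W := by
    intro y
    have : y ∈ ω ↔ MapClusterPt y atTop (fun n : ℕ => g.symm^[n] v) := Iff.rfl
    rw [this, mapClusterPt_iff_frequently]
    exact forall₂_congr fun W _ => frequently_atTop
  have hωne : ω.Nonempty := by
    obtain ⟨y, hy⟩ := exists_clusterPt_of_compactSpace (map (fun n : ℕ => g.symm^[n] v) atTop)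
    exact ⟨y, hy⟩
  have hωinv : ∀ y, g.symm y ∈ ω ↔ y ∈ ω := by
    intro y
    rw [hωchar, hωchar]
    constructor
    · intro hy W hW N
      have h1 : g ⁻¹' W ∈ 𝓝 (g.symm y) := by
        apply g.continuous.continuousAt.preimage_mem_nhds
        rwa [g.apply_symm_apply]
      obtain ⟨n, hn, h2⟩ := hy _ h1 (N + 1)
      refine ⟨n - 1, by omega, ?_⟩
      have h3 : g.symm^[n] v = g.symm (g.symm^[n - 1] v) := by
        rw [← Function.iterate_succ_apply' g.symm (n - 1)]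
        congr 1
        omega
      rw [mem_preimage, h3, g.apply_symm_apply] at h2
      exact h2
    · intro hy W hW N
      have h1 : g.symm ⁻¹' W ∈ 𝓝 y := g.symm.continuous.continuousAt.preimage_mem_nhds hW
      obtain ⟨n, hn, h2⟩ := hy _ h1 N
      refine ⟨n + 1, by omega, ?_⟩
      rw [Function.iterate_succ_apply']
      exact h2
  set S : Set X := {w | ∃ y ∈ ω, WS g y w} with hS
  have hSsat : ∀ w ∈ S, ∀ w', WS g w w' → w' ∈ S := by
    rintro w ⟨y, hy, hyw⟩ w' hww'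
    exact ⟨y, hy, hyw.trans hww'⟩
  have hSinv : ∀ w, g.symm w ∈ S ↔ w ∈ S := by
    intro w
    constructor
    · rintro ⟨y, hy, hyw⟩
      refine ⟨g y, ?_, ?_⟩
      · rw [← hωinv, g.symm_apply_apply]
        exact hy
      · have := hyw.mapIter (φ := g) (fun _ => rfl) 1
        simpa using this
    · rintro ⟨y, hy, hyw⟩
      refine ⟨g.symm y, (hωinv y).mpr hy, ?_⟩
      rw [← WS.iter 1]
      simpa using hyw
  refine ⟨closure S, ⟨isClosed_closure, ?_, ?_, closure_sat h.symm hSsat⟩, ?_⟩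
  · obtain ⟨y, hy⟩ := hωne
    exact ⟨y, subset_closure ⟨y, hy, WS.refl _ _⟩⟩
  · intro w
    have e1 : g.symm ⁻¹' S = S := by
      ext w
      exact hSinv w
    have e2 := g.symm.preimage_closure S
    rw [e1] at e2
    rw [← mem_preimage, e2]
  intro r hr ε hε η hη
  set ε₂ := min ε (min (η / 2) c) with hε₂
  have hε₂0 : 0 < ε₂ := lt_min hε (lt_min (half_pos hη) h.c_pos)
  obtain ⟨δ₃, hδ₃, hlp3⟩ := h.lp ε₂ hε₂0
  set ε₁ := min (η / 2) (min (δ₃ / 4) c) with hε₁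
  have hε₁0 : 0 < ε₁ := lt_min (half_pos hη) (lt_min (by linarith) h.c_pos)
  obtain ⟨δ, hδ, hlp⟩ := h.lp ε₁ hε₁0
  obtain ⟨w, ⟨y, hy, hyw⟩, hrw⟩ := Metric.mem_closure_iff.mp hr (δ₃ / 2) (half_pos hδ₃)
  obtain ⟨m, hm⟩ := hyw.eventually_lt (half_pos hδ)
  have h1 := hm m le_rfl
  have h2 : {y' | dist (g^[m] y') (g^[m] y) < δ / 2} ∈ 𝓝 y := by
    have hcont : Continuous fun s => dist (g^[m] s) (g^[m] y) :=
      (g.continuous.iterate m).dist continuous_const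
    exact (isOpen_lt hcont continuous_const).mem_nhds (by
      show dist (g^[m] y) (g^[m] y) < δ / 2
      rw [dist_self]; linarith)
  obtain ⟨n, hn, h3⟩ := (hωchar y).mp hy _ h2 m
  have h3' : dist (g^[m] (g.symm^[n] v)) (g^[m] y) < δ / 2 := h3
  have h4 : dist (g^[m] (g.symm^[n] v)) (g^[m] w) < δ := by
    have := dist_triangle (g^[m] (g.symm^[n] v)) (g^[m] y) (g^[m] w)
    linarith
  obtain ⟨z₁, hz1, hz2⟩ := hlp _ _ h4
  have h5 : dist w (g.symm^[m] z₁) ≤ ε₁ := by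
    have := hz2 m
    rwa [iterL] at this
  have h6 : dist (g.symm^[m] z₁) r < δ₃ := by
    have h7 : ε₁ ≤ δ₃ / 4 := (min_le_right _ _).trans (min_le_left _ _)
    have := dist_triangle_left (g.symm^[m] z₁) r w
    rw [dist_comm r w] at hrw
    linarith
  obtain ⟨z, hz3, hz4⟩ := hlp3 _ _ h6
  refine ⟨n, z, hz4.mono (min_le_left _ _), fun k => ?_⟩
  have h8 := hz3 (k + n)
  rw [fw' g (by omega)] at h8
  have h9 := hz1 (k + n - m)
  have e1 : g^[k + n - m] (g^[m] (g.symm^[n] v)) = g^[k] v := by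
    rw [← Function.iterate_add_apply]
    have e : k + n - m + m = k + n := by omega
    rw [e, Function.iterate_add_apply, iterR]
  rw [e1] at h9
  rw [← Function.iterate_add_apply]
  have h10 : ε₁ ≤ η / 2 := min_le_left _ _
  have h11 : ε₂ ≤ η / 2 := (min_le_right _ _).trans (min_le_left _ _)
  have := dist_triangle (g^[k] v) (g^[k + n - m] z₁) (g^[k + n] z)
  linarith

/-- A minimal attractor that meets a minimal repeller is the whole space. -/
theorem meet_univ [CompactSpace X] [ConnectedSpace X] {g : X ≃ₜ X} {c : ℝ} (h : LP g c)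
    {R A₀ : Set X} (hR : MinAtt g.symm R) (hA : MinAtt g A₀) (hne : (A₀ ∩ R).Nonempty) :
    A₀ = univ := by
  obtain ⟨q, hqA, hqR⟩ := hne
  have h1 : ∀ y ∈ A₀, y ∈ R := by
    intro y hy
    have hcl : y ∈ closure R := by
      rw [Metric.mem_closure_iff]
      intro ε hε
      obtain ⟨N, hN⟩ := conn_att h hA (half_pos hε) h.c_pos le_rfl
      obtain ⟨J, -, z, hz1, hz2⟩ := hN y hy q hqA
      refine ⟨z, ?_, ?_⟩
      · have h3 : g^[J] z ∈ R := hR.1.sat q hqR _ (WS.of_SR (h.cS _ _ hz2))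
        exact (inv_iter (fun x => by rw [← hR.1.inv (g x), g.symm_apply_apply]) J z).mp h3
      · have := hz1 0
        simp only [Function.iterate_zero, id] at this
        linarith
    rwa [hR.1.closed.closure_eq] at hcl
  have h2 : ∀ x ∈ A₀, ∀ y, WS g x y → y ∈ A₀ := by
    intro x hx y hxy
    have hyR : y ∈ R := hR.1.sat x (h1 x hx) y hxy
    have hcl : y ∈ closure A₀ := by
      rw [Metric.mem_closure_iff]
      intro ε hε
      obtain ⟨N, hN⟩ := conn_both h hR h.c_pos le_rfl (half_pos hε)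
      obtain ⟨J, -, z, hz1, hz2⟩ := hN x (h1 x hx) y hyR
      refine ⟨g^[J] z, ?_, ?_⟩
      · rw [inv_iter hA.1.inv]
        exact hA.1.sat x hx z (WS.of_SR (h.cU _ _ hz1))
      · have := hz2 0
        simp only [Function.iterate_zero, id] at this
        linarith
    rwa [hA.1.closed.closure_eq] at hcl
  have h3 : IsOpen A₀ := by
    obtain ⟨δ, hδ, hlp⟩ := h.lp c h.c_pos
    rw [Metric.isOpen_iff]
    refine fun x hx => ⟨δ, hδ, fun y hy => ?_⟩
    obtain ⟨z, hz1, hz2⟩ := hlp x y (by rw [dist_comm]; exact mem_ball.mp hy)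
    have h4 := h2 x hx z (WS.of_SR (h.cS _ _ hz1))
    exact hA.1.sat z h4 y (WS.of_SR (h.cU _ _ hz2)).symm'
  exact (isClopen_iff.mp ⟨hA.1.closed, h3⟩).resolve_left hA.1.nonempty.ne_empty

/-- When there is a proper attractor, some minimal repeller is connected to some minimal
attractor. -/
theorem exists_conn [CompactSpace X] [ConnectedSpace X] {g : X ≃ₜ X} {c : ℝ} (h : LP g c)
    {S : Set X} (hS : IsAtt g S) (hne : S ≠ univ) :
    ∃ (R A₀ : Set X) (r₀ a₁ w₀ : X), MinAtt g.symm R ∧ MinAtt g A₀ ∧ r₀ ∈ R ∧ a₁ ∈ A₀ ∧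
      WS g.symm r₀ w₀ ∧ WS g w₀ a₁ ∧ w₀ ∉ R ∧ w₀ ∉ A₀ := by
  obtain ⟨z, hz⟩ := (ne_univ_iff_exists_notMem S).mp hne
  obtain ⟨R, -, hR⟩ := exists_minAtt (g := g.symm) (A := univ)
    ⟨isClosed_univ, ⟨z, trivial⟩, fun _ => by simp, fun _ _ _ _ => mem_univ _⟩
  obtain ⟨r₀, hr₀⟩ := hR.1.nonempty
  obtain ⟨T, hT, hT2⟩ := conn_gen h.symm r₀
  obtain ⟨A₀, hA₀T, hA₀⟩ := exists_minAtt (g := g) hT
  have hdis : ¬ (A₀ ∩ R).Nonempty := by
    intro h1
    have h2 := meet_univ h hR hA₀ h1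
    have h3 := hA₀.2 S hS (by rw [h2]; exact subset_univ _)
    exact hz (h3 (by rw [h2]; trivial))
  obtain ⟨a, ha⟩ := hA₀.1.nonempty
  obtain ⟨J, z₁, hz1, hz2⟩ := hT2 a (hA₀T ha) c h.c_pos c h.c_pos
  have h4 : WS g.symm r₀ (g.symm^[J] z₁) := WS.of_SR (h.cU _ _ hz2)
  have h5 : WS g a z₁ := WS.of_SR (h.cS _ _ hz1)
  have h6 : WS g (g.symm^[J] z₁) (g.symm^[J] a) := by
    rw [← WS.iter J, iterR, iterR]
    exact h5.symm'
  have ha' : g.symm^[J] a ∈ A₀ := (inv_iter (inv_symm hA₀.1.inv) J a).mpr ha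
  refine ⟨R, A₀, r₀, g.symm^[J] a, g.symm^[J] z₁, hR, hA₀, hr₀, ha', h4, h6, ?_, ?_⟩
  · intro hw
    exact hdis ⟨_, ha', hR.1.sat _ hw _ h6⟩
  · intro hw
    exact hdis ⟨_, hA₀.1.sat _ hw _ h4.symm', hr₀⟩

theorem sum_prod_ge {m : ℕ} {x y : ℕ → ℕ} {K C : ℕ} (h : ∀ i < m, C ≤ K * (x i * y i)) :
    m ^ 2 * C ≤ K * ((∑ i ∈ Finset.range m, x i) * ∑ i ∈ Finset.range m, y i) := by
  have h1 : ((m : ℝ)) ^ 2 * C ≤ K * ((∑ i ∈ Finset.range m, (x i : ℝ)) *
      ∑ i ∈ Finset.range m, (y i : ℝ)) := by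
    have h2 : (∑ i ∈ Finset.range m, Real.sqrt ((K * x i) * y i)) ^ 2 ≤
        (∑ i ∈ Finset.range m, (K * x i : ℝ)) * ∑ i ∈ Finset.range m, (y i : ℝ) := by
      refine Finset.sum_sq_le_sum_mul_sum_of_sq_eq_mul _ (fun i _ => by positivity)
        (fun i _ => by positivity) fun i _ => ?_
      exact Real.sq_sqrt (by positivity)
    have h3 : (m : ℝ) * Real.sqrt C ≤ ∑ i ∈ Finset.range m, Real.sqrt ((K * x i) * y i) := by
      have : ∑ i ∈ Finset.range m, Real.sqrt (C : ℝ) ≤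
          ∑ i ∈ Finset.range m, Real.sqrt ((K * x i) * y i) := by
        refine Finset.sum_le_sum fun i hi => Real.sqrt_le_sqrt ?_
        have := h i (Finset.mem_range.mp hi)
        calc (C : ℝ) ≤ ((K * (x i * y i) : ℕ) : ℝ) := by exact_mod_cast this
          _ = _ := by push_cast; ring
      simpa using this
    calc ((m : ℝ)) ^ 2 * C = ((m : ℝ) * Real.sqrt C) ^ 2 := by
          rw [mul_pow, Real.sq_sqrt (by positivity)]
      _ ≤ (∑ i ∈ Finset.range m, Real.sqrt ((K * x i) * y i)) ^ 2 :=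
          pow_le_pow_left₀ (by positivity) h3 2
      _ ≤ _ := h2
      _ = _ := by rw [← Finset.mul_sum]; ring
  have h2 : ((m ^ 2 * C : ℕ) : ℝ) ≤ ((K * ((∑ i ∈ Finset.range m, x i) *
      ∑ i ∈ Finset.range m, y i) : ℕ) : ℝ) := by
    push_cast
    exact h1
  exact_mod_cast h2

/-- The quadratic lower bound. -/
theorem quad_gap [CompactSpace X] [ConnectedSpace X] {g : X ≃ₜ X} {c : ℝ} (h : LP g c)
    {S : Set X} (hS : IsAtt g S) (hne : S ≠ univ) :
    ∃ R A₀ : Set X, MinAtt g.symm R ∧ MinAtt g A₀ ∧ ∀ r ∈ R, ∀ a ∈ A₀, ∃ K : ℕ, ∀ n : ℕ,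
      n ^ 2 * (P g (c / 4) (c / 2) n a * P g.symm (c / 4) (c / 2) n r) ≤
        K * (P g (c / 4) (c / 2) n r * P g.symm (c / 4) (c / 2) n a) := by
  have hc := h.c_pos
  obtain ⟨R, A₀, r₀, a₁, w₀, hR, hA, hr₀, ha₁, hw1, hw2, hw3, hw4⟩ := exists_conn h hS hne
  refine ⟨R, A₀, hR, hA, fun r hr a ha => ?_⟩
  obtain ⟨K, hK, j₂, hI⟩ := conn_ineq h hR hA hr₀ ha₁ hw1 hw2 hw3 hr ha
  obtain ⟨K', hK', j₂', hII⟩ := conn_ineq h.symm (R := A₀) (A₀ := R) hA hR ha₁ hr₀ hw2.symm'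
    hw1.symm' hw4 ha hr
  obtain ⟨Ka, hKa, hsa⟩ := att_submult h hA ha
  obtain ⟨Kr, hKr, hsr⟩ := att_submult h.symm (A := R) hR hr
  set j₀ := max (max j₂ j₂') 1 with hj₀
  have hj1 : j₂ ≤ j₀ := (le_max_left _ _).trans (le_max_left _ _)
  have hj2 : j₂' ≤ j₀ := (le_max_right _ _).trans (le_max_left _ _)
  have hj3 : 1 ≤ j₀ := le_max_right _ _
  set α : ℕ → ℕ := fun n => P g (c / 4) (c / 2) n a with hα
  set σ : ℕ → ℕ := fun n => P g.symm (c / 4) (c / 2) n r with hσ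
  set B := ∑ n ∈ Finset.range j₀, α n * σ n with hB
  refine ⟨4 * j₀ ^ 2 * (Ka * Kr * (K * K')) + j₀ ^ 2 * B, fun n => ?_⟩
  have hpos : 1 ≤ P g (c / 4) (c / 2) n r * P g.symm (c / 4) (c / 2) n a :=
    Nat.mul_pos (one_le_P g (by linarith) (by linarith) n r)
      (one_le_P g.symm (by linarith) (by linarith) n a)
  set U := P g (c / 4) (c / 2) n r with hU
  set V := P g.symm (c / 4) (c / 2) n a with hV
  have hgoal : n ^ 2 * (α n * σ n) ≤
      (4 * j₀ ^ 2 * (Ka * Kr * (K * K')) + j₀ ^ 2 * B) * (U * V) := by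
    rcases Nat.lt_or_ge n j₀ with hn | hn
    · have h1 : α n * σ n ≤ B :=
        Finset.single_le_sum (f := fun n => α n * σ n) (fun _ _ => Nat.zero_le _)
          (Finset.mem_range.mpr hn)
      calc n ^ 2 * (α n * σ n) ≤ j₀ ^ 2 * B :=
            Nat.mul_le_mul (Nat.pow_le_pow_left hn.le 2) h1
        _ ≤ (4 * j₀ ^ 2 * (Ka * Kr * (K * K')) + j₀ ^ 2 * B) := Nat.le_add_left _ _
        _ ≤ _ := Nat.le_mul_of_pos_right _ hpos
    · set m := n / j₀ with hm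
      have hm1 : 1 ≤ m := (Nat.one_le_div_iff (by omega)).mpr hn
      have hmn : j₀ * m ≤ n := Nat.mul_div_le n j₀
      have hnm : n ≤ 2 * (j₀ * m) := by
        have := Nat.lt_mul_div_succ n (show 0 < j₀ by omega)
        rw [← hm] at this
        nlinarith
      have h1 := hI j₀ hj1 m n hmn
      have h2 := hII j₀ hj2 m n hmn
      have h3 : m ^ 2 * (α n * σ n) ≤ Ka * Kr *
          ((∑ i ∈ Finset.range m, σ (j₀ * (i + 1)) * α (n - j₀ * (i + 1))) *
            ∑ i ∈ Finset.range m, α (j₀ * (i + 1)) * σ (n - j₀ * (i + 1))) := by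
        apply sum_prod_ge
        intro i hi
        have hk : j₀ * (i + 1) ≤ j₀ * m := Nat.mul_le_mul_left _ hi
        have e : j₀ * (i + 1) + (n - j₀ * (i + 1)) = n := by omega
        have h4 := hsa (j₀ * (i + 1)) (n - j₀ * (i + 1))
        have h5 := hsr (j₀ * (i + 1)) (n - j₀ * (i + 1))
        rw [e] at h4 h5
        calc α n * σ n ≤ (Ka * (α (j₀ * (i + 1)) * α (n - j₀ * (i + 1)))) *
              (Kr * (σ (j₀ * (i + 1)) * σ (n - j₀ * (i + 1)))) := Nat.mul_le_mul h4 h5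
          _ = _ := by ring
      calc n ^ 2 * (α n * σ n) ≤ (2 * (j₀ * m)) ^ 2 * (α n * σ n) :=
            Nat.mul_le_mul_right _ (Nat.pow_le_pow_left hnm 2)
        _ = 4 * j₀ ^ 2 * (m ^ 2 * (α n * σ n)) := by ring
        _ ≤ 4 * j₀ ^ 2 * (Ka * Kr * ((K * U) * (K' * V))) :=
            Nat.mul_le_mul_left _ (h3.trans (Nat.mul_le_mul_left _ (Nat.mul_le_mul h1 h2)))
        _ = 4 * j₀ ^ 2 * (Ka * Kr * (K * K')) * (U * V) := by ring
        _ ≤ _ := Nat.mul_le_mul_right _ (Nat.le_add_right _ _)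
  exact hgoal

end Pool.Agent.Y330.G
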