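import Pool.Agent.Y330.G.C3
import Pool.Agent.Y330.G.B1

set_option autoImplicit false
set_option linter.unusedSectionVars false

open Filter Topology Set Metric
open scoped Manifold ContDiff

namespace Pool.Agent.Y330.G

open Pool.Agent.H789R2.AN Pool.Agent.H721R2

section two

variable {X Y : Type*} [MetricSpace X] [CompactSpace X] [MetricSpace Y] [CompactSpace Y]

/-- Two-sided comparison of the growth of `f` and of its power. -/
theorem two_sided {φ : X ≃ₜ Y} {f : X ≃ₜ X} {f' : Y ≃ₜ Y} (hφ : ∀ x, φ (f x) = f' (φ x)) {N : ℕ}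
    (hN : 1 ≤ N) {c : ℝ} (h : LP (iterHomeo f' N) c) :
    ∃ r > 0, ∀ ε > 0, ε ≤ r → ∀ δ > 0, δ ≤ r → ∃ K₁ j K₂ : ℕ,
      (∀ n x, P f ε δ n x ≤ K₂ * P (iterHomeo f' N) (c / 4) (c / 2) (n / N) (φ x)) ∧
      ∀ n x, P (iterHomeo f' N) (c / 4) (c / 2) (n / N) ((iterHomeo f' N)^[j] (φ x)) ≤
        K₁ * P f ε δ n x := by
  have hc := h.c_pos
  obtain ⟨r, hr, hr1⟩ := one_uc φ (show 0 < c / 4 by linarith)
  refine ⟨r, hr, fun ε hε0 hε δ hδ0 hδ => ?_⟩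
  have hδ1 : ∀ a b : X, dist a b ≤ δ → dist (φ a) (φ b) ≤ c / 2 := fun a b hab =>
    (hr1 a b (hab.trans hδ)).trans (by linarith)
  have hε1 : ∀ a b : X, dist a b ≤ ε → dist (φ a) (φ b) ≤ c / 4 := fun a b hab =>
    hr1 a b (hab.trans hε)
  obtain ⟨ε', hε'0, hA⟩ := cmpA hφ hN hδ0 hδ1 hε0
  obtain ⟨δ', hδ'0, hB⟩ := cmpB hφ hN hε1 hδ0
  have hA' : ∀ (m : ℕ) (x : X), P (iterHomeo f' N) (min ε' (c / 4)) (c / 2) m (φ x) ≤
      P f ε δ (N * m) x := by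
    intro m x
    refine le_trans ?_ (hA m x)
    obtain ⟨F, hF, h1⟩ := P_att (iterHomeo f' N) (min ε' (c / 4)) (show 0 < c / 2 by linarith) m
      (φ x)
    rw [← h1]
    exact P_le (by linarith) ⟨fun y hy => (hF.1 y hy).mono (min_le_left _ _), hF.2⟩
  have hm0 : 0 < min ε' (c / 4) := lt_min hε'0 (by linarith)
  have hm1 : min ε' (c / 4) ≤ c / 4 := min_le_right _ _
  obtain ⟨K₁, -, j₁, h1⟩ := P_gen h (ε := c / 4) (ε' := min ε' (c / 4)) (δ := c / 2)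
    (δ' := c / 2) (by linarith) hm0 (by linarith) (by linarith) (by linarith) (by linarith)
  obtain ⟨K₂, -, h2⟩ := P_chg h (ε := c / 4) (δ := δ') (δ' := c / 2) (by linarith) hδ'0
    (by linarith) (by linarith)
  refine ⟨K₁, j₁, K₂, fun n x => (hB n x).trans (h2 _ _), fun n x => ?_⟩
  have h6 := h1 (n / N) ((iterHomeo f' N)^[j₁] (φ x))
  rw [iterL] at h6
  exact h6.trans (Nat.mul_le_mul_left _ ((hA' (n / N) x).trans
    (P_mono_n (g := f) (ε := ε) hδ0 (Nat.mul_div_le n N) x)))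

/-- The quadratic gap for `f`. -/
theorem gap_abs [ConnectedSpace X] {φ : X ≃ₜ Y} {f : X ≃ₜ X} {f' : Y ≃ₜ Y}
    (hφ : ∀ x, φ (f x) = f' (φ x)) {N : ℕ} (hN : 1 ≤ N) {c : ℝ} (h : LP (iterHomeo f' N) c)
    (hnt : ¬ TopTransitive f) :
    ∃ r > 0, ∃ p q : X, ∀ ε > 0, ε ≤ r → ∀ δ > 0, δ ≤ r → ∃ K : ℕ, ∀ n : ℕ,
      n ^ 2 * (P f ε δ n q * P f.symm ε δ n p) ≤ K * (P f ε δ n p * P f.symm ε δ n q) := by
  have hc := h.c_pos
  have hY : ConnectedSpace Y := φ.surjective.connectedSpace φ.continuous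
  have h' : LP (iterHomeo f'.symm N) c := by
    rw [← ith_symm]
    exact h.symm
  have ht : TopTransitive f' → TopTransitive f := by
    intro ht U V hU hUn hV hVn
    obtain ⟨n, _, ⟨x, hx, rfl⟩, hy⟩ := ht (φ.symm ⁻¹' U) (φ.symm ⁻¹' V)
      (hU.preimage φ.symm.continuous) (hUn.preimage φ.symm.surjective)
      (hV.preimage φ.symm.continuous) (hVn.preimage φ.symm.surjective)
    refine ⟨n, φ.symm (f'^[n] x), ⟨φ.symm x, hx, ?_⟩, hy⟩
    apply φ.injective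
    rw [conj_iter hφ, φ.apply_symm_apply, φ.apply_symm_apply]
  have hex : ∃ S, IsAtt (iterHomeo f' N) S ∧ S ≠ univ := by
    by_contra hcon
    push Not at hcon
    exact hnt (ht ((trans_iff hN h).mpr hcon))
  obtain ⟨S, hS, hSne⟩ := hex
  obtain ⟨R, A₀, hR, hA, hgap⟩ := quad_gap h hS hSne
  obtain ⟨r, hr⟩ := hR.1.nonempty
  obtain ⟨a, ha⟩ := hA.1.nonempty
  obtain ⟨K, hK⟩ := hgap r hr a ha
  obtain ⟨CR, -, hCR⟩ := growth_rep h hR
  obtain ⟨CA, -, hCA⟩ := growth_rep h.symm (R := A₀) hA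
  obtain ⟨r₁, hr₁, h1⟩ := two_sided hφ hN h
  obtain ⟨r₂, hr₂, h2⟩ := two_sided (conj_symm hφ) hN h'
  refine ⟨min r₁ r₂, lt_min hr₁ hr₂, φ.symm r, φ.symm a, fun ε hε0 hε δ hδ0 hδ => ?_⟩
  obtain ⟨K₁, j, K₂, h3, h4⟩ := h1 ε hε0 (hε.trans (min_le_left _ _)) δ hδ0
    (hδ.trans (min_le_left _ _))
  obtain ⟨K₁', j', K₂', h3', h4'⟩ := h2 ε hε0 (hε.trans (min_le_right _ _)) δ hδ0
    (hδ.trans (min_le_right _ _))
  have h3a : ∀ n, P f ε δ n (φ.symm a) ≤ K₂ * P (iterHomeo f' N) (c / 4) (c / 2) (n / N) a := by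
    intro n
    have := h3 n (φ.symm a)
    rwa [φ.apply_symm_apply] at this
  have h3r : ∀ n, P f.symm ε δ n (φ.symm r) ≤
      K₂' * P (iterHomeo f' N).symm (c / 4) (c / 2) (n / N) r := by
    intro n
    have := h3' n (φ.symm r)
    rwa [φ.apply_symm_apply] at this
  have h4r : ∀ n, P (iterHomeo f' N) (c / 4) (c / 2) (n / N) r ≤
      CR * K₁ * P f ε δ n (φ.symm r) := by
    intro n
    have h5 := h4 n (φ.symm r)
    rw [φ.apply_symm_apply] at h5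
    calc _ ≤ CR * _ := hCR r hr _ (fwR hR.1 j hr) (n / N)
      _ ≤ CR * (K₁ * _) := Nat.mul_le_mul_left _ h5
      _ = _ := by ring
  have h4a : ∀ n, P (iterHomeo f' N).symm (c / 4) (c / 2) (n / N) a ≤
      CA * K₁' * P f.symm ε δ n (φ.symm a) := by
    intro n
    have h5 := h4' n (φ.symm a)
    rw [φ.apply_symm_apply] at h5
    have h6 : (iterHomeo f'.symm N)^[j'] a ∈ A₀ := by
      have := (inv_iter (inv_symm hA.1.inv) j' a).mpr ha
      rwa [ith_symm] at this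
    calc _ ≤ CA * _ := hCA a ha _ h6 (n / N)
      _ ≤ CA * (K₁' * _) := Nat.mul_le_mul_left _ h5
      _ = _ := by ring
  set α : ℕ → ℕ := fun m => P (iterHomeo f' N) (c / 4) (c / 2) m a with hα
  set σ : ℕ → ℕ := fun m => P (iterHomeo f' N).symm (c / 4) (c / 2) m r with hσ
  set U : ℕ → ℕ := fun m => P (iterHomeo f' N) (c / 4) (c / 2) m r with hU
  set V : ℕ → ℕ := fun m => P (iterHomeo f' N).symm (c / 4) (c / 2) m a with hV
  have hK' : ∀ m, (m + 1) ^ 2 * (α m * σ m) ≤ (4 * K + α 0 * σ 0) * (U m * V m) := by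
    intro m
    have hpos : 1 ≤ U m * V m :=
      Nat.mul_pos (one_le_P _ (by linarith) (by linarith) m r)
        (one_le_P _ (by linarith) (by linarith) m a)
    rcases Nat.eq_zero_or_pos m with rfl | hm
    · calc (0 + 1) ^ 2 * (α 0 * σ 0) = α 0 * σ 0 := by ring
        _ ≤ 4 * K + α 0 * σ 0 := Nat.le_add_left _ _
        _ ≤ _ := Nat.le_mul_of_pos_right _ hpos
    · have h5 : m ^ 2 * (α m * σ m) ≤ K * (U m * V m) := hK m
      have h6 : (m + 1) ^ 2 ≤ 4 * m ^ 2 := by nlinarith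
      calc (m + 1) ^ 2 * (α m * σ m) ≤ 4 * m ^ 2 * (α m * σ m) := Nat.mul_le_mul_right _ h6
        _ = 4 * (m ^ 2 * (α m * σ m)) := by ring
        _ ≤ 4 * (K * (U m * V m)) := Nat.mul_le_mul_left _ h5
        _ = 4 * K * (U m * V m) := by ring
        _ ≤ _ := Nat.mul_le_mul_right _ (Nat.le_add_right _ _)
  refine ⟨N ^ 2 * (K₂ * K₂') * (4 * K + α 0 * σ 0) * ((CR * K₁) * (CA * K₁')), fun n => ?_⟩
  have hn : n ≤ N * (n / N + 1) := (Nat.lt_mul_div_succ n (by omega)).le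
  calc n ^ 2 * (P f ε δ n (φ.symm a) * P f.symm ε δ n (φ.symm r))
      ≤ (N * (n / N + 1)) ^ 2 * ((K₂ * α (n / N)) * (K₂' * σ (n / N))) :=
        Nat.mul_le_mul (Nat.pow_le_pow_left hn 2) (Nat.mul_le_mul (h3a n) (h3r n))
    _ = N ^ 2 * (K₂ * K₂') * ((n / N + 1) ^ 2 * (α (n / N) * σ (n / N))) := by ring
    _ ≤ N ^ 2 * (K₂ * K₂') * ((4 * K + α 0 * σ 0) * (U (n / N) * V (n / N))) :=
        Nat.mul_le_mul_left _ (hK' (n / N))
    _ ≤ N ^ 2 * (K₂ * K₂') * ((4 * K + α 0 * σ 0) *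
        ((CR * K₁ * P f ε δ n (φ.symm r)) * (CA * K₁' * P f.symm ε δ n (φ.symm a)))) :=
        Nat.mul_le_mul_left _ (Nat.mul_le_mul_left _ (Nat.mul_le_mul (h4r n) (h4a n)))
    _ = _ := by ring

end two

/-- The gap dichotomy on manifolds. -/
theorem man_gap {E : Type*} [NormedAddCommGroup E] [NormedSpace ℝ E] [FiniteDimensional ℝ E]
    {M : Type*} [MetricSpace M] [CompactSpace M] [ConnectedSpace M]
    [ChartedSpace E M] [IsManifold 𝓘(ℝ, E) ∞ M] (f : Diffeomorph 𝓘(ℝ, E) 𝓘(ℝ, E) M M 1)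
    (Es Eu : ∀ x : M, Submodule ℝ (TangentSpace 𝓘(ℝ, E) x)) (hA : IsAnosov f Es Eu)
    (hnt : ¬ TopTransitive f) :
    ∃ r > 0, ∃ p q : M, ∀ ε > 0, ε ≤ r → ∀ δ > 0, δ ≤ r → ∃ K : ℕ, ∀ n : ℕ,
      n ^ 2 * (P f.toHomeomorph ε δ n q * P f.toHomeomorph.symm ε δ n p) ≤
        K * (P f.toHomeomorph ε δ n p * P f.toHomeomorph.symm ε δ n q) := by
  obtain ⟨Y, iY, cY, φ, f', N, c, hφ, hN, hc⟩ := exists_model f Es Eu hA
  exact gap_abs (f := f.toHomeomorph) hφ hN hc hnt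

end Pool.Agent.Y330.G
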