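import Pool.Agent.Y330.G.C4

set_option autoImplicit false

open Filter Topology Set Metric
open scoped Manifold ContDiff

namespace Pool.Agent.Y330.G

open Pool.Agent.H789R2.AN Pool.Agent.H721R2

theorem main {E : Type*} [NormedAddCommGroup E] [NormedSpace ℝ E] [FiniteDimensional ℝ E]
    {M : Type*} [MetricSpace M] [CompactSpace M] [ConnectedSpace M]
    [ChartedSpace E M] [IsManifold 𝓘(ℝ, E) ∞ M] (f : Diffeomorph 𝓘(ℝ, E) 𝓘(ℝ, E) M M 1)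
    (Es Eu : ∀ x : M, Submodule ℝ (TangentSpace 𝓘(ℝ, E) x)) (hA : IsAnosov f Es Eu) :
    ∃ r > 0,
      (TopTransitive f → ∀ ε ∈ Ioc 0 r, ∀ δ ∈ Ioc 0 r, ∃ C : ℕ, ∀ n x y,
        growth f.toHomeomorph ε δ n x ≤ C * growth f.toHomeomorph ε δ n y ∧
        growth f.toHomeomorph.symm ε δ n x ≤ C * growth f.toHomeomorph.symm ε δ n y) ∧
      (¬ TopTransitive f → ∃ p q : M, ∀ ε ∈ Ioc 0 r, ∀ δ ∈ Ioc 0 r, ∃ K : ℕ, ∀ n : ℕ,
        (n : ℕ∞) ^ 2 * (growth f.toHomeomorph ε δ n q * growth f.toHomeomorph.symm ε δ n p) ≤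
          K * (growth f.toHomeomorph ε δ n p * growth f.toHomeomorph.symm ε δ n q)) := by
  obtain ⟨r₁, hr₁, h1⟩ := man_growth f Es Eu hA
  by_cases ht : TopTransitive f
  · refine ⟨r₁, hr₁, fun _ ε hε δ hδ => ?_, fun h => absurd ht h⟩
    obtain ⟨⟨C, hC⟩, C', hC'⟩ := (h1 ε hε.1 hε.2 δ hδ.1 hδ.2).mp ht
    refine ⟨max C C', fun n x y => ?_⟩
    rw [growth_eq _ _ hδ.1, growth_eq _ _ hδ.1, growth_eq _ _ hδ.1, growth_eq _ _ hδ.1]
    constructor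
    · exact_mod_cast (hC n x y).trans (Nat.mul_le_mul_right _ (le_max_left _ _))
    · exact_mod_cast (hC' n x y).trans (Nat.mul_le_mul_right _ (le_max_right _ _))
  · obtain ⟨r₂, hr₂, p, q, h2⟩ := man_gap f Es Eu hA ht
    refine ⟨r₂, hr₂, fun h => absurd h ht, fun _ => ⟨p, q, fun ε hε δ hδ => ?_⟩⟩
    obtain ⟨K, hK⟩ := h2 ε hε.1 hε.2 δ hδ.1 hδ.2
    refine ⟨K, fun n => ?_⟩
    rw [growth_eq _ _ hδ.1, growth_eq _ _ hδ.1, growth_eq _ _ hδ.1, growth_eq _ _ hδ.1]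
    exact_mod_cast hK n

end Pool.Agent.Y330.G
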